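import Pool.Agent.H34.Scv.Fat

/-!
A compact convex set without a ball of radius `M` lies in a slab of width `(d + 1) M` (by Helly's
theorem); sets that are not fat have arbitrarily long pieces of bounded thickness.
-/

namespace Pool.Agent.H34.Scv

open Set Filter Topology

variable {E : Type*} [NormedAddCommGroup E] [InnerProductSpace ℝ E]

/-- `G` has arbitrarily long pieces of bounded thickness: for some `C` and every `T` there is a
point `x` of `G` such that the part of `G` within distance `T` of `x` lies in a slab of half-width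
`C` around `x`. -/
def Thin (G : Set E) : Prop :=
  ∃ C : ℝ, ∀ T : ℝ, ∃ x ∈ G, ∃ u : E, ‖u‖ = 1 ∧ ∀ y ∈ G, ‖y - x‖ ≤ T → |(inner ℝ u (y - x) : ℝ)| ≤ C

theorem slab_of_no_ball [FiniteDimensional ℝ E] {K : Set E} (hK : IsCompact K)
    (hne : K.Nonempty) (hconv : Convex ℝ K) {M : ℝ} (hM : 0 < M)
    (hno : ∀ z : E, ¬ Metric.closedBall z M ⊆ K) :
    ∃ u : E, ‖u‖ = 1 ∧ ∀ p ∈ K, ∀ q ∈ K,
      (inner ℝ u p : ℝ) - inner ℝ u q ≤ (Module.finrank ℝ E + 1) * M := by
  by_contra hcon
  push Not at hcon
  -- maxima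
  have hmax : ∀ u : {u : E // ‖u‖ = 1}, ∃ m ∈ K, ∀ p ∈ K, (inner ℝ u.1 p : ℝ) ≤ inner ℝ u.1 m := by
    intro u
    obtain ⟨p, hp, -⟩ := hcon u.1 u.2
    obtain ⟨m, hm, hm2⟩ := hK.exists_isMaxOn ⟨p, hp⟩
      (f := fun x => (inner ℝ u.1 x : ℝ)) (by fun_prop)
    exact ⟨m, hm, fun p hp => hm2 hp⟩
  choose m hmK hm using hmax
  have hk : ∀ u : {u : E // ‖u‖ = 1}, ∃ k ∈ K, (inner ℝ u.1 k : ℝ) <
      inner ℝ u.1 (m u) - (Module.finrank ℝ E + 1) * M := by
    intro u
    obtain ⟨p, hp, q, hq, hpq⟩ := hcon u.1 u.2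
    exact ⟨q, hq, by linarith [hm u p hp]⟩
  choose k hkK hk using hk
  -- Helly
  have hHelly := Convex.helly_theorem_compact' (𝕜 := ℝ)
    (F := fun u : {u : E // ‖u‖ = 1} => K ∩ {x | (inner ℝ u.1 x : ℝ) ≤ inner ℝ u.1 (m u) - M})
    (fun u => hconv.inter (by
      intro x hx y hy a b ha hb hab
      simp only [mem_ofPred_eq] at *
      rw [inner_add_right, real_inner_smul_right, real_inner_smul_right]
      have : inner ℝ u.1 (m u) - M = a * (inner ℝ u.1 (m u) - M) + b * (inner ℝ u.1 (m u) - M) := by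
        rw [← add_mul, hab, one_mul]
      rw [this]
      gcongr))
    (fun u => hK.inter_right (isClosed_le (by fun_prop) (by fun_prop)))
    (fun I hI => by
      rcases I.eq_empty_or_nonempty with rfl | hIne
      · simp
      · have hc0 : (0 : ℝ) < I.card := by exact_mod_cast hIne.card_pos
        refine ⟨∑ u ∈ I, (1 / (I.card : ℝ)) • k u, ?_⟩
        rw [mem_iInter₂]
        intro v hv
        refine ⟨hconv.sum_mem (fun _ _ => by positivity) ?_ (fun u _ => hkK u), ?_⟩
        · rw [Finset.sum_const, nsmul_eq_mul]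
          field_simp
        · simp only [mem_ofPred_eq]
          rw [inner_sum]
          simp_rw [real_inner_smul_right]
          rw [← Finset.mul_sum]
          classical
          rw [← Finset.add_sum_erase I _ hv]
          have h1 : ∑ u ∈ I.erase v, (inner ℝ v.1 (k u) : ℝ) ≤
              (I.erase v).card • (inner ℝ v.1 (m v) : ℝ) :=
            Finset.sum_le_card_nsmul _ _ _ (fun u _ => hm v _ (hkK u))
          rw [Finset.card_erase_of_mem hv, nsmul_eq_mul, Nat.cast_sub (by
            exact_mod_cast hIne.card_pos), Nat.cast_one] at h1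
          have h2 := hk v
          have h3 : (I.card : ℝ) ≤ Module.finrank ℝ E + 1 := by exact_mod_cast hI
          have h4 : (I.card : ℝ) * M ≤ (Module.finrank ℝ E + 1) * M := by gcongr
          rw [one_div, inv_mul_le_iff₀ hc0]
          nlinarith)
  obtain ⟨x, hx⟩ := hHelly
  rw [mem_iInter] at hx
  apply hno x
  intro y hy
  by_contra hyK
  obtain ⟨φ, s, h1, h2⟩ := geometric_hahn_banach_closed_point hconv hK.isClosed hyK
  set w : E := (InnerProductSpace.toDual ℝ E).symm φ with hw
  have hφ : ∀ z, φ z = inner ℝ w z := by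
    intro z; rw [hw, InnerProductSpace.toDual_symm_apply]
  have hw0 : w ≠ 0 := by
    intro h0
    have hs : s < 0 := by
      have := h2
      rwa [hφ, h0, inner_zero_left] at this
    obtain ⟨p, hp⟩ := hne
    have := h1 p hp
    rw [hφ, h0, inner_zero_left] at this
    linarith
  set u : E := (‖w‖)⁻¹ • w with hu
  have hwn : 0 < ‖w‖ := norm_pos_iff.mpr hw0
  have hu1 : ‖u‖ = 1 := by
    rw [hu, norm_smul, norm_inv, norm_norm, inv_mul_cancel₀ hwn.ne']
  have h3 := (hx ⟨u, hu1⟩).2
  simp only [mem_ofPred_eq] at h3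
  have h4 := h1 _ (hmK ⟨u, hu1⟩)
  have h5 : (inner ℝ u y : ℝ) ≤ inner ℝ u x + M := by
    have e1 : (inner ℝ u y : ℝ) = inner ℝ u x + inner ℝ u (y - x) := by
      rw [← inner_add_right]; congr 1; abel
    have e2 := real_inner_le_norm u (y - x)
    rw [hu1, one_mul] at e2
    rw [mem_closedBall_iff_norm] at hy
    linarith
  have h6 : (inner ℝ u (m ⟨u, hu1⟩) : ℝ) < inner ℝ u y := by
    have : (inner ℝ w (m ⟨u, hu1⟩) : ℝ) < inner ℝ w y := by
      rw [← hφ, ← hφ]; linarith
    have e1 : ∀ z : E, (inner ℝ u z : ℝ) = (‖w‖)⁻¹ * inner ℝ w z := by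
      intro z; rw [hu, real_inner_smul_left]
    rw [e1, e1]
    exact mul_lt_mul_of_pos_left this (by positivity)
  linarith

/-- Sets that are not fat have arbitrarily long pieces of bounded thickness. -/
theorem thin_of_not_fat [FiniteDimensional ℝ E] {G : Set E} (hG : IsOpen G) (hconv : Convex ℝ G)
    (h : ¬ Fat G) : Thin G := by
  unfold Fat at h
  push Not at h
  obtain ⟨M, hM, h⟩ := h
  refine ⟨(Module.finrank ℝ E + 1) * M, fun T => ?_⟩
  obtain ⟨x, hx, hno⟩ := h (max T 0)
  set K : Set E := closure G ∩ Metric.closedBall x (max T 0) with hK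
  have hT0 : 0 ≤ max T 0 := le_max_right _ _
  have hKc : IsCompact K := (isCompact_closedBall x _).inter_left isClosed_closure
  have hxK : x ∈ K := ⟨subset_closure hx, Metric.mem_closedBall_self hT0⟩
  have hKconv : Convex ℝ K := hconv.closure.inter (convex_closedBall _ _)
  obtain ⟨u, hu, hslab⟩ := slab_of_no_ball hKc ⟨x, hxK⟩ hKconv hM (by
    intro z hz
    have hzK : z ∈ K := hz (Metric.mem_closedBall_self hM.le)
    have hzT : ‖z - x‖ ≤ max T 0 := by
      have := hzK.2
      rwa [mem_closedBall_iff_norm] at this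
    apply hno z hzT
    have e1 : Metric.ball z M ⊆ closure G := fun w hw => (hz (Metric.ball_subset_closedBall hw)).1
    have e2 : Metric.ball z M ⊆ interior (closure G) := interior_maximal e1 Metric.isOpen_ball
    rwa [hconv.interior_closure_eq_interior_of_nonempty_interior
      ⟨x, by rw [hG.interior_eq]; exact hx⟩, hG.interior_eq] at e2)
  refine ⟨x, hx, u, hu, fun y hy hyT => ?_⟩
  have hyK : y ∈ K := ⟨subset_closure hy, by
    rw [mem_closedBall_iff_norm]; exact hyT.trans (le_max_left _ _)⟩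
  rw [inner_sub_right, abs_le]
  have e1 := hslab y hyK x hxK
  have e2 := hslab x hxK y hyK
  constructor <;> linarith

/-- Thin sets are not fat. -/
theorem not_fat_of_thin {G : Set E} (h : Thin G) : ¬ Fat G := by
  intro hfat
  obtain ⟨C, hC⟩ := h
  obtain ⟨T0, hT0⟩ := hfat (|C| + 1) (by positivity)
  obtain ⟨x, hx, u, hu, hsl⟩ := hC (T0 + (|C| + 1))
  obtain ⟨z, hz, hball⟩ := hT0 x hx
  set r : ℝ := |C| + 1 / 2 with hr
  have hr0 : 0 ≤ r := by positivity
  have key : ∀ s : ℝ, |s| = r → |(inner ℝ u (z + s • u - x) : ℝ)| ≤ C := by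
    intro s hs
    have e : ‖z + s • u - z‖ = r := by
      rw [add_sub_cancel_left, norm_smul, hu, mul_one, Real.norm_eq_abs, hs]
    apply hsl _ (hball _) _
    · rw [mem_ball_iff_norm, e, hr]; linarith
    · have := norm_sub_le_norm_sub_add_norm_sub (z + s • u) z x
      rw [e] at this
      linarith
  have k1 := key r (abs_of_nonneg hr0)
  have k2 := key (-r) (by rw [abs_neg, abs_of_nonneg hr0])
  have huu : (inner ℝ u u : ℝ) = 1 := by rw [real_inner_self_eq_norm_sq, hu]; norm_num
  have e1 : (inner ℝ u (z + r • u - x) : ℝ) = inner ℝ u (z - x) + r := by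
    have : z + r • u - x = (z - x) + r • u := by abel
    rw [this, inner_add_right, real_inner_smul_right, huu, mul_one]
  have e2 : (inner ℝ u (z + (-r) • u - x) : ℝ) = inner ℝ u (z - x) - r := by
    have : z + (-r) • u - x = (z - x) + (-r) • u := by abel
    rw [this, inner_add_right, real_inner_smul_right, huu, mul_one]
    ring
  rw [e1] at k1
  rw [e2] at k2
  have a1 := (abs_le.mp k1).2
  have a2 := (abs_le.mp k2).1
  have a3 := le_abs_self C
  linarith

end Pool.Agent.H34.Scv
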