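import Pool.Agent.H34.Scv.Bump
import Pool.Agent.H34.Scv.Slab
import Pool.Agent.H34.Scv.SD

/-!
On an unbounded convex set with arbitrarily long pieces of bounded thickness every modulus `ω` with
`liminf ω(t)/t > 0` at `0` and `liminf ω(t)/t = 0` at `∞` has a function that is `ω`-semiconvex and
`ω`-semiconcave and not in `C^{1,ω}`.
-/

namespace Pool.Agent.H34.Scv

open Set Filter Topology

variable {E : Type*} [NormedAddCommGroup E] [InnerProductSpace ℝ E]

/-- a recession direction -/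
theorem exists_ray [FiniteDimensional ℝ E] {G : Set E} (hG : IsOpen G) (hconv : Convex ℝ G)
    (hub : ¬ Bornology.IsBounded G) :
    ∃ v : E, ‖v‖ = 1 ∧ ∀ x ∈ G, ∀ s : ℝ, 0 ≤ s → x + s • v ∈ G := by
  have hne : G.Nonempty := by
    rw [nonempty_iff_ne_empty]
    rintro rfl
    exact hub Bornology.isBounded_empty
  obtain ⟨p0, hp0⟩ := hne
  set G0 : Set E := (fun x => p0 + x) ⁻¹' G with hG0
  have h1 : IsOpen G0 := hG.preimage (by fun_prop)
  have h2 : Convex ℝ G0 := by
    intro x hx y hy a b ha hb hab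
    simp only [hG0, mem_preimage] at *
    have : p0 + (a • x + b • y) = a • (p0 + x) + b • (p0 + y) := by
      have : p0 = (a + b) • p0 := by rw [hab, one_smul]
      nth_rw 1 [this]
      module
    rw [this]
    exact hconv hx hy ha hb hab
  have h0 : (0 : E) ∈ G0 := by simpa [hG0] using hp0
  have hfar : ∀ n : ℕ, ∃ p ∈ G0, (n : ℝ) + 1 ≤ ‖p‖ := by
    intro n
    by_contra hcon
    push Not at hcon
    apply hub
    rw [isBounded_iff_forall_norm_le]
    refine ⟨‖p0‖ + (n + 1), fun x hx => ?_⟩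
    have hx0 : x - p0 ∈ G0 := by simpa [hG0] using hx
    have := hcon _ hx0
    have e := norm_add_le p0 (x - p0)
    rw [add_sub_cancel] at e
    linarith
  choose p hp hpn using hfar
  obtain ⟨e, φ, he, hrc, -, -⟩ := exists_subseq h1 h2 h0 hp hpn
  refine ⟨e, he, fun x hx s hs => ?_⟩
  -- move a bit beyond x
  have hcont : ContinuousAt (fun δ : ℝ => x + δ • (x - p0)) 0 := by fun_prop
  have hx0 : x + (0 : ℝ) • (x - p0) ∈ G := by simpa using hx
  have hev := (hcont.eventually (hG.mem_nhds hx0)).filter_mono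
    (nhdsWithin_le_nhds (s := Ioi (0 : ℝ)))
  obtain ⟨δ, hδ1, hδ2⟩ := (hev.and self_mem_nhdsWithin).exists
  have hδ0 : (0 : ℝ) < δ := hδ2
  have hfarp := hrc (s * (1 + δ) / δ) (by positivity)
  simp only [hG0, mem_preimage] at hfarp
  have := hconv hδ1 hfarp (show 0 ≤ 1 / (1 + δ) by positivity) (show 0 ≤ δ / (1 + δ) by positivity)
    (by field_simp)
  have e2 : (1 / (1 + δ)) • (x + δ • (x - p0)) + (δ / (1 + δ)) • (p0 + (s * (1 + δ) / δ) • e) =
      x + s • e := by
    have c1 : (1 / (1 + δ)) • (x + δ • (x - p0)) = x - (δ / (1 + δ)) • p0 := by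
      have : (1 / (1 + δ)) • (x + δ • (x - p0)) = ((1 + δ) / (1 + δ)) • x - (δ / (1 + δ)) • p0 := by
        module
      rw [this, div_self (by positivity), one_smul]
    have c2 : (δ / (1 + δ)) • (p0 + (s * (1 + δ) / δ) • e) = (δ / (1 + δ)) • p0 + s • e := by
      rw [smul_add, smul_smul]
      congr 2
      field_simp
    rw [c1, c2]
    abel
  rwa [e2] at this

/-- derivative from a quadratic bound -/
lemma quad_deriv {f : E → ℝ} {x : E} {L : E →L[ℝ] ℝ} {K : ℝ} (hK : 0 ≤ K)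
    (h : ∀ y, |f y - f x - L (y - x)| ≤ K * ‖y - x‖ ^ 2) : HasFDerivAt f L x := by
  have hω : IsModulus (fun t : ℝ => K * t) := by
    refine ⟨fun s t hs hst => ?_, fun t ht => ?_, ?_⟩
    · exact mul_le_mul_of_nonneg_left hst hK
    · exact mul_nonneg hK ht
    · have : Tendsto (fun t : ℝ => K * t) (𝓝 0) (𝓝 (K * 0)) := tendsto_id.const_mul K
      rw [mul_zero] at this
      exact this.mono_left nhdsWithin_le_nhds
  apply hasFDeriv_of hω isOpen_univ (mem_univ x) L
  intro y _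
  refine (h y).trans (le_of_eq ?_)
  ring

lemma fb_deriv_centre {p u : E} {t : ℝ} (hu : ‖u‖ = 1) (ht : 0 < t) :
    HasFDerivAt (fb p u t) (t • innerSL ℝ u) p := by
  apply quad_deriv (K := 4) (by norm_num)
  intro y
  have h1 : gb p t p = t := by
    unfold gb sp; simp
  have e : fb p u t y - fb p u t p - (t • innerSL ℝ u) (y - p) =
      inner ℝ u (y - p) * (gb p t y - gb p t p) := by
    unfold fb
    rw [sub_self, inner_zero_right, zero_mul, sub_zero, h1]
    simp only [smul_apply, innerSL_apply_apply, smul_eq_mul]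
    ring
  rw [e, abs_mul]
  have h2 := gb_lip (p := p) ht y p
  have h3 := abs_real_inner_le_norm u (y - p)
  rw [hu, one_mul] at h3
  calc |(inner ℝ u (y - p) : ℝ)| * |gb p t y - gb p t p| ≤ ‖y - p‖ * (4 * ‖y - p‖) := by gcongr
    _ = 4 * ‖y - p‖ ^ 2 := by ring

lemma fb_deriv_edge {p u q : E} {t : ℝ} (hu : ‖u‖ = 1) (ht : 0 < t) (hq : ‖q - p‖ = t) :
    HasFDerivAt (fb p u t) (0 : E →L[ℝ] ℝ) q := by
  apply quad_deriv (K := 4) (by norm_num)
  intro y
  have h1 : sp p t q = 0 := sp_zero ht hq.ge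
  have h2 : fb p u t q = 0 := by unfold fb gb; rw [h1]; simp
  rw [h2, zero_apply, sub_zero, sub_zero]
  rcases le_or_gt t ‖y - p‖ with hy | hy
  · have : fb p u t y = 0 := by unfold fb; rw [gb_zero ht hy, mul_zero]
    rw [this, abs_zero]
    positivity
  · have h3 := sp_lip (p := p) ht y q
    rw [h1, sub_zero, abs_of_nonneg (sp_nonneg y)] at h3
    have h4 := abs_real_inner_le_norm u (y - p)
    rw [hu, one_mul] at h4
    unfold fb gb
    rw [abs_mul, abs_of_nonneg (show 0 ≤ t * sp p t y ^ 2 by positivity)]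
    have hs := sp_nonneg (p := p) (t := t) y
    calc |(inner ℝ u (y - p) : ℝ)| * (t * sp p t y ^ 2) ≤ t * (t * (2 / t * ‖y - q‖) ^ 2) := by
          gcongr
          linarith
      _ = 4 * ‖y - q‖ ^ 2 := by field_simp; ring

lemma fb_continuous (p u : E) {t : ℝ} (ht : 0 < t) : Continuous (fb p u t) := by
  unfold fb gb sp
  fun_prop

section sum

variable {G : Set E} {p u : ℕ → E} {t : ℕ → ℝ} {C : ℝ}

/-- the sum of the blocks -/
noncomputable def fs (p u : ℕ → E) (t : ℕ → ℝ) (z : E) : ℝ := ∑' j, fb (p j) (u j) (t j) z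

variable (ht : ∀ j, 1 ≤ t j) (hsep : ∀ j, ‖p j‖ + 2 * t j ≤ ‖p (j + 1)‖ - 2 * t (j + 1))
include ht hsep

omit [InnerProductSpace ℝ E] in
lemma sep_lt {i j : ℕ} (hij : i < j) : ‖p i‖ + 2 * t i ≤ ‖p j‖ - 2 * t j := by
  induction j with
  | zero => omega
  | succ j ih =>
    rcases Nat.lt_succ_iff_lt_or_eq.mp hij with h | h
    · have := ih h
      have := hsep j
      have := ht j
      linarith
    · subst h; exact hsep i

omit [InnerProductSpace ℝ E] in
lemma sep_unique {i j : ℕ} {w : E} (hi : ‖w - p i‖ < 2 * t i) (hj : ‖w - p j‖ < 2 * t j) :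
    i = j := by
  have key : ∀ a b : ℕ, a < b → ‖w - p a‖ < 2 * t a → ‖w - p b‖ < 2 * t b → False := by
    intro a b hab ha hb
    have h1 := sep_lt ht hsep hab
    have h2 : ‖w‖ ≤ ‖p a‖ + ‖w - p a‖ := by
      have := norm_add_le (p a) (w - p a)
      rwa [add_sub_cancel] at this
    have h3 : ‖p b‖ ≤ ‖w‖ + ‖w - p b‖ := by
      have := norm_sub_le w (w - p b)
      rwa [sub_sub_cancel] at this
    linarith
  rcases lt_trichotomy i j with h | h | h
  · exact (key i j h hi hj).elim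
  · exact h
  · exact (key j i h hj hi).elim

lemma fb_ne {j : ℕ} {w : E} (h : fb (p j) (u j) (t j) w ≠ 0) : ‖w - p j‖ < t j := by
  by_contra hcon
  push Not at hcon
  apply h
  unfold fb
  rw [gb_zero (by linarith [ht j]) hcon, mul_zero]

lemma fs_eq_of {S : Finset ℕ} {w : E} (h : ∀ j, j ∉ S → fb (p j) (u j) (t j) w = 0) :
    fs p u t w = ∑ j ∈ S, fb (p j) (u j) (t j) w := by
  unfold fs
  exact tsum_eq_sum h

lemma fs_index (w : E) : ∃ i : ℕ, ∀ j, j ≠ i → fb (p j) (u j) (t j) w = 0 := by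
  by_cases h : ∃ i, fb (p i) (u i) (t i) w ≠ 0
  · obtain ⟨i, hi⟩ := h
    refine ⟨i, fun j hj => ?_⟩
    by_contra hcon
    apply hj
    have h1 := fb_ne ht hsep hi
    have h2 := fb_ne ht hsep hcon
    exact sep_unique ht hsep (by linarith [ht j]) (by linarith [ht i])
  · push Not at h
    exact ⟨0, fun j _ => h j⟩

lemma fs_near {j : ℕ} {w : E} (hw : ‖w - p j‖ < 2 * t j) :
    fs p u t =ᶠ[𝓝 w] fb (p j) (u j) (t j) := by
  have ho : IsOpen {z : E | ‖z - p j‖ < 2 * t j} := isOpen_lt (by fun_prop) (by fun_prop)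
  filter_upwards [ho.mem_nhds hw] with z hz
  have hz' : ‖z - p j‖ < 2 * t j := hz
  have := fs_eq_of ht hsep (u := u) (S := {j}) (w := z) (by
    intro i hi
    rw [Finset.mem_singleton] at hi
    by_contra hcon
    exact hi (sep_unique ht hsep (by linarith [fb_ne ht hsep hcon, ht i]) hz'))
  rw [this, Finset.sum_singleton]

lemma fs_continuous : Continuous (fs p u t) := by
  have hgrow : ∀ j : ℕ, (‖p 0‖ - 2 * t 0) + 4 * j ≤ ‖p j‖ - 2 * t j := by
    intro j
    induction j with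
    | zero => simp
    | succ j ih => push_cast; linarith [hsep j, ht j]
  rw [continuous_iff_continuousAt]
  intro w
  obtain ⟨N, hN⟩ := exists_nat_gt (‖w‖ + 1 - (‖p 0‖ - 2 * t 0))
  have hN' : ‖w‖ + 1 ≤ ‖p N‖ - 2 * t N := by
    have := hgrow N
    have h0 : (0 : ℝ) ≤ N := Nat.cast_nonneg N
    linarith
  have hev : fs p u t =ᶠ[𝓝 w] fun z => ∑ j ∈ Finset.range N, fb (p j) (u j) (t j) z := by
    have ho : IsOpen {z : E | ‖z‖ < ‖w‖ + 1} := isOpen_lt (by fun_prop) (by fun_prop)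
    filter_upwards [ho.mem_nhds (show ‖w‖ < ‖w‖ + 1 by linarith)] with z hz
    have hz' : ‖z‖ < ‖w‖ + 1 := hz
    apply fs_eq_of ht hsep
    intro j hj
    rw [Finset.mem_range, not_lt] at hj
    by_contra hcon
    have h1 := fb_ne ht hsep hcon
    have h2 : ‖p j‖ ≤ ‖z‖ + ‖z - p j‖ := by
      have := norm_sub_le z (z - p j)
      rwa [sub_sub_cancel] at this
    have h3 : ‖p N‖ - 2 * t N ≤ ‖p j‖ - 2 * t j := by
      rcases hj.eq_or_lt with h | h
      · rw [h]
      · have := sep_lt ht hsep h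
        linarith [ht N]
    linarith [ht j]
  apply ContinuousAt.congr _ hev.symm
  apply Continuous.continuousAt
  apply continuous_finsetSum
  intro j _
  exact fb_continuous _ _ (by linarith [ht j])

/-- defect of the sum -/
lemma fs_defect (hconv : Convex ℝ G) (hu : ∀ j, ‖u j‖ = 1) (hC : 0 ≤ C)
    (hslab : ∀ j, ∀ y ∈ G, ‖y - p j‖ ≤ 2 * t j → |(inner ℝ (u j) (y - p j) : ℝ)| ≤ C)
    {x y : E} (hx : x ∈ G) (hy : y ∈ G) {l : ℝ} (hl0 : 0 ≤ l) (hl1 : l ≤ 1) :
    |fs p u t (l • x + (1 - l) • y) - (l * fs p u t x + (1 - l) * fs p u t y)| ≤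
      3 * ((16 * C + 4) * (l * (1 - l) * ‖x - y‖ * min ‖x - y‖ 1)) := by
  have hm : 0 ≤ 1 - l := by linarith
  set z := l • x + (1 - l) • y with hz
  obtain ⟨ix, hix⟩ := fs_index ht hsep (u := u) x
  obtain ⟨iy, hiy⟩ := fs_index ht hsep (u := u) y
  obtain ⟨iz, hiz⟩ := fs_index ht hsep (u := u) z
  set S : Finset ℕ := {ix, iy, iz} with hS
  have hmem : ∀ j, j ∉ S → j ≠ ix ∧ j ≠ iy ∧ j ≠ iz := by
    intro j hj
    simp only [hS, Finset.mem_insert, Finset.mem_singleton, not_or] at hj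
    exact hj
  have ex := fs_eq_of ht hsep (u := u) (S := S) (w := x) (fun j hj => hix j (hmem j hj).1)
  have ey := fs_eq_of ht hsep (u := u) (S := S) (w := y) (fun j hj => hiy j (hmem j hj).2.1)
  have ez := fs_eq_of ht hsep (u := u) (S := S) (w := z) (fun j hj => hiz j (hmem j hj).2.2)
  rw [ex, ey, ez, Finset.mul_sum, Finset.mul_sum, ← Finset.sum_add_distrib,
    ← Finset.sum_sub_distrib]
  have hD0 : 0 ≤ ‖x - y‖ := norm_nonneg _
  have hB : ∀ j ∈ S, |fb (p j) (u j) (t j) z -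
      (l * fb (p j) (u j) (t j) x + (1 - l) * fb (p j) (u j) (t j) y)| ≤
      (16 * C + 4) * (l * (1 - l) * ‖x - y‖ * min ‖x - y‖ 1) := by
    intro j _
    rcases le_or_gt ‖x - y‖ 1 with hD | hD
    · rw [min_eq_left hD]
      refine (fb_short (hu j) (ht j) hC hconv (hslab j) hx hy hl0 hl1 hD).trans ?_
      have h0 : 0 ≤ l * (1 - l) * ‖x - y‖ * ‖x - y‖ := by positivity
      have h1 : 0 ≤ C * (l * (1 - l) * ‖x - y‖ * ‖x - y‖) := by positivity
      nlinarith
    · rw [min_eq_right hD.le]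
      refine (fb_long (ht j) hC hconv (hslab j) hx hy hl0 hl1).trans ?_
      have h0 : 0 ≤ l * (1 - l) * ‖x - y‖ := by positivity
      nlinarith
  refine (Finset.abs_sum_le_sum_abs _ _).trans ?_
  refine (Finset.sum_le_card_nsmul _ _ _ hB).trans ?_
  rw [nsmul_eq_mul]
  have hcard : (S.card : ℝ) ≤ 3 := by exact_mod_cast Finset.card_le_three
  have h0 : 0 ≤ (16 * C + 4) * (l * (1 - l) * ‖x - y‖ * min ‖x - y‖ 1) := by positivity
  exact mul_le_mul_of_nonneg_right hcard h0

end sum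

/-- **Thin sets**: every modulus with the two growth conditions has a bad function. -/
theorem thin_bad [FiniteDimensional ℝ E] {G : Set E} (hG : IsOpen G) (hconv : Convex ℝ G)
    (hub : ¬ Bornology.IsBounded G) (hthin : Thin G) {ω : ℝ → ℝ} (hω : IsModulus ω)
    (hlow : ∃ c : ℝ, 0 < c ∧ ∀ᶠ t : ℝ in 𝓝[>] 0, c ≤ ω t / t)
    (htop : ∀ ε : ℝ, 0 < ε → ∃ᶠ t : ℝ in atTop, ω t / t < ε) :
    ∃ f : E → ℝ, Semiconvex ω G f ∧ Semiconcave ω G f ∧ ¬ IsC1 ω G f := by
  obtain ⟨v, hv, hray⟩ := exists_ray hG hconv hub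
  obtain ⟨C, hC⟩ := hthin
  have hC0 : 0 ≤ C := by
    obtain ⟨x, hx, u, hu, h⟩ := hC 0
    have := h x hx (by simp)
    exact (abs_nonneg _).trans this
  -- lower bound for ω
  obtain ⟨c, hc, hcω⟩ : ∃ c : ℝ, 0 < c ∧ ∀ t, 0 ≤ t → c * min t 1 ≤ ω t := by
    obtain ⟨c0, hc0, hev⟩ := hlow
    rw [eventually_nhdsWithin_iff, Metric.eventually_nhds_iff] at hev
    obtain ⟨δ, hδ, hev⟩ := hev
    set d : ℝ := min (δ / 2) 1 with hd
    have hd0 : 0 < d := by positivity
    have hd1 : d < δ := lt_of_le_of_lt (min_le_left _ _) (by linarith)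
    have hd2 : d ≤ 1 := min_le_right _ _
    have hsm : ∀ t, 0 < t → t ≤ d → c0 * t ≤ ω t := by
      intro t ht0 htd
      have := hev (y := t) (by rw [Real.dist_eq, sub_zero, abs_of_pos ht0]; linarith) ht0
      rwa [le_div_iff₀ ht0] at this
    refine ⟨c0 * d, by positivity, fun t ht0 => ?_⟩
    rcases ht0.eq_or_lt with h | h
    · rw [← h, min_eq_left zero_le_one, mul_zero]
      exact hω.2.1 0 le_rfl
    · rcases le_or_gt t d with htd | htd
      · rw [min_eq_left (htd.trans hd2)]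
        have h1 := hsm t h htd
        have h2 : c0 * d * t ≤ c0 * 1 * t := by gcongr
        linarith
      · have h1 := hsm d hd0 le_rfl
        have h2 := hω.1 d t hd0.le htd.le
        have h3 : c0 * d * min t 1 ≤ c0 * d * 1 := by gcongr; exact min_le_right _ _
        linarith
  -- selection
  have hsel : ∀ (R : ℝ) (j : ℕ), 0 ≤ R → ∃ p ∈ G, ∃ (u : E) (t : ℝ), 1 ≤ t ∧ ‖u‖ = 1 ∧
      ω t ≤ t / ((j : ℝ) + 1) ∧ (∀ y ∈ G, ‖y - p‖ ≤ 2 * t → |(inner ℝ u (y - p) : ℝ)| ≤ 2 * C) ∧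
      R ≤ ‖p‖ - 2 * t := by
    intro R j hR
    obtain ⟨t, ht1, ht2⟩ := ((htop (1 / ((j : ℝ) + 1)) (by positivity)).and_eventually
      (eventually_ge_atTop 1)).exists
    have ht0 : 0 < t := by linarith
    obtain ⟨x, hx, u, hu, hsl⟩ := hC (2 * (R + 2 * t) + 2 * t)
    have hωt : ω t ≤ t / ((j : ℝ) + 1) := by
      rw [div_lt_iff₀ ht0] at ht1
      rw [div_eq_mul_one_div]
      linarith
    rcases le_or_gt (R + 2 * t) ‖x‖ with hbig | hsmall
    · refine ⟨x, hx, u, t, ht2, hu, hωt, fun y hy hyt => ?_, by linarith⟩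
      have := hsl y hy (by linarith)
      linarith
    · set s : ℝ := 2 * (R + 2 * t) with hs
      have hs0 : 0 ≤ s := by positivity
      have hpG := hray x hx s hs0
      have hpx : ‖x + s • v - x‖ = s := by
        rw [add_sub_cancel_left, norm_smul, hv, mul_one, Real.norm_of_nonneg hs0]
      refine ⟨x + s • v, hpG, u, t, ht2, hu, hωt, fun y hy hyt => ?_, ?_⟩
      · have h1 := hsl (x + s • v) hpG (by rw [hpx]; linarith)
        have h2 := hsl y hy (by
          have := norm_sub_le_norm_sub_add_norm_sub y (x + s • v) x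
          rw [hpx] at this
          linarith)
        have e : (inner ℝ u (y - (x + s • v)) : ℝ) = inner ℝ u (y - x) -
            inner ℝ u (x + s • v - x) := by
          rw [← inner_sub_right]; congr 1; abel
        rw [e]
        refine (abs_sub _ _).trans ?_
        linarith
      · have : s ≤ ‖x + s • v‖ + ‖x‖ := by
          exact hpx.symm.le.trans (norm_sub_le (x + s • v) x)
        linarith
  choose! P hPG U T hT1 hU hωT hsl hR using hsel
  -- recursion on the radii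
  set Rr : ℕ → ℝ := fun j =>
    Nat.rec (motive := fun _ => ℝ) 0 (fun (k : ℕ) (R : ℝ) => ‖P R k‖ + 2 * T R k) j with hRr
  have hRs : ∀ j, Rr (j + 1) = ‖P (Rr j) j‖ + 2 * T (Rr j) j := fun j => rfl
  have hR0 : ∀ j, 0 ≤ Rr j := by
    intro j
    induction j with
    | zero => exact le_rfl
    | succ j ih =>
      rw [hRs]
      have := hT1 (Rr j) j ih
      positivity
  set p : ℕ → E := fun j => P (Rr j) j with hp
  set u : ℕ → E := fun j => U (Rr j) j with hu
  set t : ℕ → ℝ := fun j => T (Rr j) j with ht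
  have ht1 : ∀ j, 1 ≤ t j := fun j => hT1 _ _ (hR0 j)
  have hu1 : ∀ j, ‖u j‖ = 1 := fun j => hU _ _ (hR0 j)
  have hpG : ∀ j, p j ∈ G := fun j => hPG _ _ (hR0 j)
  have hωt : ∀ j : ℕ, ω (t j) ≤ t j / ((j : ℝ) + 1) := fun j => hωT _ _ (hR0 j)
  have hslab : ∀ j, ∀ y ∈ G, ‖y - p j‖ ≤ 2 * t j → |(inner ℝ (u j) (y - p j) : ℝ)| ≤ 2 * C :=
    fun j => hsl _ _ (hR0 j)
  have hsep : ∀ j, ‖p j‖ + 2 * t j ≤ ‖p (j + 1)‖ - 2 * t (j + 1) := by
    intro j
    have := hR (Rr (j + 1)) (j + 1) (hR0 (j + 1))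
    rw [hRs] at this
    exact this
  -- the function
  set B : ℝ := 3 * (16 * (2 * C) + 4) with hB
  have hB0 : 0 < B := by positivity
  set κ : ℝ := c / B with hκ
  have hκ0 : 0 < κ := by positivity
  have hdef := fun {x y : E} (hx : x ∈ G) (hy : y ∈ G) {l : ℝ} (hl0 : 0 ≤ l) (hl1 : l ≤ 1) =>
    fs_defect ht1 hsep hconv hu1 (show 0 ≤ 2 * C by positivity) hslab hx hy hl0 hl1
  have hdef2 : ∀ x ∈ G, ∀ y ∈ G, ∀ l : ℝ, 0 ≤ l → l ≤ 1 →
      |κ * fs p u t (l • x + (1 - l) • y) - (l * (κ * fs p u t x) + (1 - l) * (κ * fs p u t y))| ≤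
        l * (1 - l) * ‖x - y‖ * ω ‖x - y‖ := by
    intro x hx y hy l hl0 hl1
    have h1 := hdef hx hy hl0 hl1
    have e : κ * fs p u t (l • x + (1 - l) • y) -
        (l * (κ * fs p u t x) + (1 - l) * (κ * fs p u t y)) =
        κ * (fs p u t (l • x + (1 - l) • y) - (l * fs p u t x + (1 - l) * fs p u t y)) := by ring
    rw [e, abs_mul, abs_of_pos hκ0]
    have hm : 0 ≤ 1 - l := by linarith
    calc κ * |fs p u t (l • x + (1 - l) • y) - (l * fs p u t x + (1 - l) * fs p u t y)| ≤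
        κ * (3 * ((16 * (2 * C) + 4) * (l * (1 - l) * ‖x - y‖ * min ‖x - y‖ 1))) := by gcongr
      _ = l * (1 - l) * ‖x - y‖ * (c * min ‖x - y‖ 1) := by
          rw [hκ, hB]; field_simp
      _ ≤ l * (1 - l) * ‖x - y‖ * ω ‖x - y‖ := by
          gcongr
          exact hcω _ (norm_nonneg _)
  have hcont : Continuous (fun z => κ * fs p u t z) :=
    continuous_const.mul (fs_continuous ht1 hsep)
  refine ⟨fun z => κ * fs p u t z, ⟨hcont.continuousOn, fun x hx y hy l hl0 hl1 => ?_⟩,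
    ⟨hcont.neg.continuousOn, fun x hx y hy l hl0 hl1 => ?_⟩, ?_⟩
  · have := (abs_le.mp (hdef2 x hx y hy l hl0 hl1)).2
    dsimp only
    linarith
  · have := (abs_le.mp (hdef2 x hx y hy l hl0 hl1)).1
    dsimp only
    linarith
  · rintro ⟨K, hK, -, hKb⟩
    obtain ⟨j, hj⟩ := exists_nat_gt (K / κ)
    rw [div_lt_iff₀ hκ0] at hj
    set q : E := p j + t j • v with hq
    have ht0 : 0 < t j := by linarith [ht1 j]
    have hqG : q ∈ G := hray _ (hpG j) _ ht0.le
    have hqp : ‖q - p j‖ = t j := by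
      rw [hq, add_sub_cancel_left, norm_smul, hv, mul_one, Real.norm_of_nonneg ht0.le]
    have d1 : HasFDerivAt (fun z => κ * fs p u t z) (κ • (t j • innerSL ℝ (u j))) (p j) := by
      have h1 := fs_near ht1 hsep (u := u) (j := j) (w := p j) (by rw [sub_self, norm_zero]; linarith)
      have h2 := (fb_deriv_centre (p := p j) (hu1 j) ht0).congr_of_eventuallyEq h1
      exact h2.const_mul κ
    have d2 : HasFDerivAt (fun z => κ * fs p u t z) (κ • (0 : E →L[ℝ] ℝ)) q := by
      have h1 := fs_near ht1 hsep (u := u) (j := j) (w := q) (by rw [hqp]; linarith)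
      have h2 := (fb_deriv_edge (p := p j) (hu1 j) ht0 hqp).congr_of_eventuallyEq h1
      exact h2.const_mul κ
    have := hKb q hqG (p j) (hpG j)
    rw [d1.fderiv, d2.fderiv, smul_zero, zero_sub, norm_neg, norm_smul, norm_smul, hqp,
      innerSL_apply_norm, hu1 j, mul_one, Real.norm_of_nonneg hκ0.le,
      Real.norm_of_nonneg ht0.le] at this
    have h3 := hωt j
    have h4 : κ * t j ≤ K * (t j / ((j : ℝ) + 1)) := this.trans (by gcongr)
    rw [← mul_div_assoc, le_div_iff₀ (by positivity)] at h4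
    have h5 : (j : ℝ) * κ * t j < (j + 1) * κ * t j := by
      have : 0 < κ * t j := by positivity
      nlinarith
    have h6 : K * t j < (j : ℝ) * κ * t j := by gcongr
    linarith

end Pool.Agent.H34.Scv
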