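import Pool.Agent.H34.Scv.SB

/-!
The building block `⟨u, z - p⟩ · t (1 - ‖z - p‖² / t²)₊²` of functions that are semiconvex and
semiconcave on sets with pieces of bounded thickness.
-/

namespace Pool.Agent.H34.Scv

open Set Filter Topology

variable {E : Type*} [NormedAddCommGroup E] [InnerProductSpace ℝ E]

/-- the profile -/
noncomputable def sp (p : E) (t : ℝ) (z : E) : ℝ := max 0 (1 - ‖z - p‖ ^ 2 / t ^ 2)

/-- the bump of height `t` and radius `t` -/
noncomputable def gb (p : E) (t : ℝ) (z : E) : ℝ := t * sp p t z ^ 2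

/-- the building block -/
noncomputable def fb (p u : E) (t : ℝ) (z : E) : ℝ := inner ℝ u (z - p) * gb p t z

section prof

variable {p : E} {t : ℝ}

omit [InnerProductSpace ℝ E] in
lemma sp_nonneg (z : E) : 0 ≤ sp p t z := le_max_left _ _

omit [InnerProductSpace ℝ E] in
lemma sp_le_one (z : E) : sp p t z ≤ 1 := by
  unfold sp
  apply max_le zero_le_one
  have : 0 ≤ ‖z - p‖ ^ 2 / t ^ 2 := by positivity
  linarith

omit [InnerProductSpace ℝ E] in
lemma sp_zero (ht : 0 < t) {z : E} (hz : t ≤ ‖z - p‖) : sp p t z = 0 := by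
  unfold sp
  apply max_eq_left
  have : 1 ≤ ‖z - p‖ ^ 2 / t ^ 2 := by
    rw [one_le_div (by positivity)]
    gcongr
  linarith

omit [InnerProductSpace ℝ E] in
lemma sp_in (ht : 0 < t) {z : E} (hz : ‖z - p‖ ≤ t) : sp p t z = 1 - ‖z - p‖ ^ 2 / t ^ 2 := by
  unfold sp
  apply max_eq_right
  have : ‖z - p‖ ^ 2 / t ^ 2 ≤ 1 := by
    rw [div_le_one (by positivity)]
    gcongr
  linarith

omit [InnerProductSpace ℝ E] in
lemma sp_lip_one (ht : 0 < t) (x y : E) : sp p t x - sp p t y ≤ 2 / t * ‖x - y‖ := by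
  have hD : 0 ≤ 2 / t * ‖x - y‖ := by positivity
  have htri : ‖y - p‖ ≤ ‖x - p‖ + ‖x - y‖ := by
    have := norm_sub_le_norm_sub_add_norm_sub y x p
    rw [norm_sub_rev y x] at this
    linarith
  rcases le_or_gt t ‖x - p‖ with hx | hx
  · rw [sp_zero ht hx]
    have := sp_nonneg (p := p) (t := t) y
    linarith
  · rw [sp_in ht hx.le, div_mul_eq_mul_div, le_div_iff₀ ht]
    set a := ‖x - p‖
    set b := ‖y - p‖
    set D := ‖x - y‖
    have ha : 0 ≤ a := norm_nonneg _
    have hb : 0 ≤ b := norm_nonneg _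
    have hDn : 0 ≤ D := norm_nonneg _
    rcases le_or_gt t b with hy | hy
    · rw [sp_zero ht hy, sub_zero]
      have e : (1 - a ^ 2 / t ^ 2) * t = (t ^ 2 - a ^ 2) / t := by field_simp
      rw [e, div_le_iff₀ ht]
      nlinarith
    · rw [sp_in ht hy.le]
      have e : (1 - a ^ 2 / t ^ 2 - (1 - b ^ 2 / t ^ 2)) * t = (b ^ 2 - a ^ 2) / t := by
        field_simp; ring
      rw [e, div_le_iff₀ ht]
      nlinarith

omit [InnerProductSpace ℝ E] in
lemma sp_lip (ht : 0 < t) (x y : E) : |sp p t x - sp p t y| ≤ 2 / t * ‖x - y‖ := by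
  rw [abs_le]
  have h1 := sp_lip_one (p := p) ht x y
  have h2 := sp_lip_one (p := p) ht y x
  rw [norm_sub_rev y x] at h2
  constructor <;> linarith

omit [InnerProductSpace ℝ E] in
lemma gb_nonneg (ht : 0 < t) (z : E) : 0 ≤ gb p t z := by unfold gb; positivity

omit [InnerProductSpace ℝ E] in
lemma gb_le (ht : 0 < t) (z : E) : gb p t z ≤ t := by
  unfold gb
  have h1 := sp_nonneg (p := p) (t := t) z
  have h2 := sp_le_one (p := p) (t := t) z
  have h3 : sp p t z ^ 2 ≤ 1 := by nlinarith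
  nlinarith

omit [InnerProductSpace ℝ E] in
lemma gb_zero (ht : 0 < t) {z : E} (hz : t ≤ ‖z - p‖) : gb p t z = 0 := by
  unfold gb; rw [sp_zero ht hz]; simp

omit [InnerProductSpace ℝ E] in
lemma gb_lip (ht : 0 < t) (x y : E) : |gb p t x - gb p t y| ≤ 4 * ‖x - y‖ := by
  have h1 := sp_lip (p := p) ht x y
  have a1 := sp_nonneg (p := p) (t := t) x
  have a2 := sp_le_one (p := p) (t := t) x
  have b1 := sp_nonneg (p := p) (t := t) y
  have b2 := sp_le_one (p := p) (t := t) y
  unfold gb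
  have e : t * sp p t x ^ 2 - t * sp p t y ^ 2 =
      t * (sp p t x + sp p t y) * (sp p t x - sp p t y) := by ring
  rw [e, abs_mul, abs_of_nonneg (by positivity)]
  calc t * (sp p t x + sp p t y) * |sp p t x - sp p t y| ≤
      t * (1 + 1) * (2 / t * ‖x - y‖) := by gcongr
    _ = 4 * ‖x - y‖ := by field_simp; ring

/-- a real inequality -/
lemma real_defect {X Y Z κ l D : ℝ} (hX : 0 ≤ X) (hY : 0 ≤ Y) (hZ : 0 ≤ Z) (hl0 : 0 ≤ l)
    (hl1 : l ≤ 1) (hD : 0 ≤ D) (hκ : 0 ≤ κ) (h1 : |X - Z| ≤ κ * ((1 - l) * D))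
    (h2 : |Y - Z| ≤ κ * (l * D)) (h3 : 0 < X → 0 < Y → l * X + (1 - l) * Y - Z ≤ 0)
    (h4 : 0 < Z → -(κ ^ 2 * (l * (1 - l) * D ^ 2)) ≤ l * X + (1 - l) * Y - Z) (hZ1 : Z ≤ 1) :
    |Z ^ 2 - (l * X ^ 2 + (1 - l) * Y ^ 2)| ≤ 3 * κ ^ 2 * (l * (1 - l) * D ^ 2) := by
  have hm : 0 ≤ 1 - l := by linarith
  have e : Z ^ 2 - (l * X ^ 2 + (1 - l) * Y ^ 2) =
      -(l * (X - Z) ^ 2 + (1 - l) * (Y - Z) ^ 2 + 2 * (Z * (l * X + (1 - l) * Y - Z))) := by ring
  have a1 : (X - Z) ^ 2 ≤ (κ * ((1 - l) * D)) ^ 2 := by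
    rw [← sq_abs (X - Z)]; gcongr
  have a2 : (Y - Z) ^ 2 ≤ (κ * (l * D)) ^ 2 := by
    rw [← sq_abs (Y - Z)]; gcongr
  have b1 : l * (X - Z) ^ 2 + (1 - l) * (Y - Z) ^ 2 ≤ κ ^ 2 * (l * (1 - l) * D ^ 2) := by
    calc l * (X - Z) ^ 2 + (1 - l) * (Y - Z) ^ 2 ≤
        l * (κ * ((1 - l) * D)) ^ 2 + (1 - l) * (κ * (l * D)) ^ 2 := by gcongr
      _ = κ ^ 2 * (l * (1 - l) * D ^ 2) := by ring
  have b0 : 0 ≤ l * (X - Z) ^ 2 + (1 - l) * (Y - Z) ^ 2 := by positivity
  have Q0 : 0 ≤ κ ^ 2 * (l * (1 - l) * D ^ 2) := by positivity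
  set Q := κ ^ 2 * (l * (1 - l) * D ^ 2) with hQ
  have c1 : -Q ≤ Z * (l * X + (1 - l) * Y - Z) := by
    rcases hZ.eq_or_lt with h | h
    · rw [← h]; linarith [zero_mul (l * X + (1 - l) * Y - 0)]
    · have := h4 h
      nlinarith
  have c2 : Z * (l * X + (1 - l) * Y - Z) ≤ Q := by
    rcases hX.eq_or_lt with hx | hx
    · -- X = 0
      rw [← hx] at h1 ⊢
      rw [zero_sub, abs_neg, abs_of_nonneg hZ] at h1
      have d1 : l * 0 + (1 - l) * Y - Z ≤ (1 - l) * (κ * (l * D)) := by
        have : Y - Z ≤ κ * (l * D) := (le_abs_self _).trans h2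
        nlinarith
      rcases le_or_gt (l * 0 + (1 - l) * Y - Z) 0 with h0 | h0
      · nlinarith
      · calc Z * (l * 0 + (1 - l) * Y - Z) ≤ (κ * ((1 - l) * D)) * ((1 - l) * (κ * (l * D))) := by
              gcongr
          _ = (1 - l) * Q := by rw [hQ]; ring
          _ ≤ 1 * Q := by gcongr; linarith
          _ = Q := one_mul _
    · rcases hY.eq_or_lt with hy | hy
      · rw [← hy] at h2 ⊢
        rw [zero_sub, abs_neg, abs_of_nonneg hZ] at h2
        have d1 : l * X + (1 - l) * 0 - Z ≤ l * (κ * ((1 - l) * D)) := by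
          have : X - Z ≤ κ * ((1 - l) * D) := (le_abs_self _).trans h1
          nlinarith
        rcases le_or_gt (l * X + (1 - l) * 0 - Z) 0 with h0 | h0
        · nlinarith
        · calc Z * (l * X + (1 - l) * 0 - Z) ≤ (κ * (l * D)) * (l * (κ * ((1 - l) * D))) := by
                gcongr
            _ = l * Q := by rw [hQ]; ring
            _ ≤ 1 * Q := by gcongr
            _ = Q := one_mul _
      · have := h3 hx hy
        nlinarith
  rw [e, abs_neg, abs_le]
  constructor <;> linarith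

end prof

lemma norm_combo {x y p : E} {l : ℝ} : ‖l • x + (1 - l) • y - p‖ ^ 2 =
    l * ‖x - p‖ ^ 2 + (1 - l) * ‖y - p‖ ^ 2 - l * (1 - l) * ‖x - y‖ ^ 2 := by
  have e1 : l • x + (1 - l) • y - p = l • (x - p) + (1 - l) • (y - p) := by module
  have e2 : x - y = (x - p) - (y - p) := by abel
  rw [e1, e2]
  generalize x - p = a
  generalize y - p = b
  rw [norm_add_sq_real, norm_sub_sq_real, norm_smul, norm_smul, real_inner_smul_left,
    real_inner_smul_right, mul_pow, mul_pow, Real.norm_eq_abs, Real.norm_eq_abs, sq_abs, sq_abs]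
  ring

lemma xz_norm {x y : E} {l : ℝ} (hl1 : l ≤ 1) :
    ‖x - (l • x + (1 - l) • y)‖ = (1 - l) * ‖x - y‖ := by
  have e : x - (l • x + (1 - l) • y) = (1 - l) • (x - y) := by module
  rw [e, norm_smul, Real.norm_of_nonneg (by linarith)]

lemma yz_norm {x y : E} {l : ℝ} (hl0 : 0 ≤ l) :
    ‖y - (l • x + (1 - l) • y)‖ = l * ‖x - y‖ := by
  have e : y - (l • x + (1 - l) • y) = l • (y - x) := by module
  rw [e, norm_smul, Real.norm_of_nonneg hl0, norm_sub_rev]

/-- second order bound for the bump -/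
lemma gb_defect {p : E} {t : ℝ} (ht : 1 ≤ t) {x y : E} {l : ℝ} (hl0 : 0 ≤ l) (hl1 : l ≤ 1) :
    |gb p t (l • x + (1 - l) • y) - (l * gb p t x + (1 - l) * gb p t y)| ≤
      12 * (l * (1 - l) * ‖x - y‖ ^ 2) := by
  have ht0 : 0 < t := by linarith
  have hm : 0 ≤ 1 - l := by linarith
  set z := l • x + (1 - l) • y with hz
  set D := ‖x - y‖ with hD
  have hxz : ‖x - z‖ = (1 - l) * D := xz_norm hl1
  have hyz : ‖y - z‖ = l * D := yz_norm hl0
  have h1 := sp_lip (p := p) ht0 x z
  have h2 := sp_lip (p := p) ht0 y z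
  rw [hxz] at h1
  rw [hyz] at h2
  have hs : ∀ w : E, 1 - ‖w - p‖ ^ 2 / t ^ 2 ≤ sp p t w := fun w => le_max_right _ _
  have hsz : 1 - ‖z - p‖ ^ 2 / t ^ 2 = l * (1 - ‖x - p‖ ^ 2 / t ^ 2) +
      (1 - l) * (1 - ‖y - p‖ ^ 2 / t ^ 2) + l * (1 - l) * D ^ 2 / t ^ 2 := by
    rw [hz, norm_combo]
    field_simp
    ring
  have key := real_defect (κ := 2 / t) (sp_nonneg (p := p) (t := t) x)
    (sp_nonneg (p := p) (t := t) y) (sp_nonneg (p := p) (t := t) z) hl0 hl1 (norm_nonneg (x - y))
    (by positivity) h1 h2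
    (by
      intro hx hy
      have ex : sp p t x = 1 - ‖x - p‖ ^ 2 / t ^ 2 := by
        unfold sp at hx ⊢
        rcases max_choice (0 : ℝ) (1 - ‖x - p‖ ^ 2 / t ^ 2) with h | h
        · rw [h] at hx; exact absurd hx (lt_irrefl _)
        · exact h
      have ey : sp p t y = 1 - ‖y - p‖ ^ 2 / t ^ 2 := by
        unfold sp at hy ⊢
        rcases max_choice (0 : ℝ) (1 - ‖y - p‖ ^ 2 / t ^ 2) with h | h
        · rw [h] at hy; exact absurd hy (lt_irrefl _)
        · exact h
      rw [ex, ey]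
      have := hs z
      have h5 : 0 ≤ l * (1 - l) * D ^ 2 / t ^ 2 := by positivity
      linarith)
    (by
      intro hzp
      have ez : sp p t z = 1 - ‖z - p‖ ^ 2 / t ^ 2 := by
        unfold sp at hzp ⊢
        rcases max_choice (0 : ℝ) (1 - ‖z - p‖ ^ 2 / t ^ 2) with h | h
        · rw [h] at hzp; exact absurd hzp (lt_irrefl _)
        · exact h
      rw [ez, hsz]
      have a1 := mul_le_mul_of_nonneg_left (hs x) hl0
      have a2 := mul_le_mul_of_nonneg_left (hs y) hm
      have h5 : l * (1 - l) * D ^ 2 / t ^ 2 ≤ (2 / t) ^ 2 * (l * (1 - l) * D ^ 2) := by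
        have : (2 / t) ^ 2 * (l * (1 - l) * D ^ 2) = 4 * (l * (1 - l) * D ^ 2 / t ^ 2) := by
          field_simp; ring
        rw [this]
        have : 0 ≤ l * (1 - l) * D ^ 2 / t ^ 2 := by positivity
        linarith
      linarith)
    (sp_le_one z)
  unfold gb
  have e : t * sp p t z ^ 2 - (l * (t * sp p t x ^ 2) + (1 - l) * (t * sp p t y ^ 2)) =
      t * (sp p t z ^ 2 - (l * sp p t x ^ 2 + (1 - l) * sp p t y ^ 2)) := by ring
  rw [e, abs_mul, abs_of_pos ht0]
  calc t * |sp p t z ^ 2 - (l * sp p t x ^ 2 + (1 - l) * sp p t y ^ 2)| ≤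
      t * (3 * (2 / t) ^ 2 * (l * (1 - l) * ‖x - y‖ ^ 2)) := by gcongr
    _ = (12 * (l * (1 - l) * ‖x - y‖ ^ 2)) / t := by field_simp; ring
    _ ≤ 12 * (l * (1 - l) * ‖x - y‖ ^ 2) := div_le_self (by positivity) ht

section block

variable {G : Set E} {p u : E} {t C : ℝ}

/-- second difference of a product with an affine function -/
lemma prod_defect {a g : E → ℝ} {x y z : E} {l : ℝ} (ha : a z = l * a x + (1 - l) * a y) :
    a z * g z - (l * (a x * g x) + (1 - l) * (a y * g y)) =
      a z * (g z - (l * g x + (1 - l) * g y)) - l * (1 - l) * ((a x - a y) * (g x - g y)) := by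
  rw [ha]; ring

lemma aff_combo {x y : E} {l : ℝ} : (inner ℝ u (l • x + (1 - l) • y - p) : ℝ) =
    l * inner ℝ u (x - p) + (1 - l) * inner ℝ u (y - p) := by
  have e1 : l • x + (1 - l) • y - p = l • (x - p) + (1 - l) • (y - p) := by module
  rw [e1, inner_add_right, real_inner_smul_right, real_inner_smul_right]

/-- small distances -/
lemma fb_short (hu : ‖u‖ = 1) (ht : 1 ≤ t) (hC : 0 ≤ C) (hconv : Convex ℝ G)
    (hslab : ∀ y ∈ G, ‖y - p‖ ≤ 2 * t → |(inner ℝ u (y - p) : ℝ)| ≤ C) {x y : E} (hx : x ∈ G)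
    (hy : y ∈ G) {l : ℝ} (hl0 : 0 ≤ l) (hl1 : l ≤ 1) (hD : ‖x - y‖ ≤ 1) :
    |fb p u t (l • x + (1 - l) • y) - (l * fb p u t x + (1 - l) * fb p u t y)| ≤
      (12 * C + 4) * (l * (1 - l) * ‖x - y‖ ^ 2) := by
  have ht0 : 0 < t := by linarith
  have hm : 0 ≤ 1 - l := by linarith
  set z := l • x + (1 - l) • y with hz
  set D := ‖x - y‖ with hDdef
  have hD0 : 0 ≤ D := norm_nonneg _
  have hzG : z ∈ G := hconv hx hy hl0 hm (by ring)
  have hxz : ‖x - z‖ = (1 - l) * D := xz_norm hl1
  have hyz : ‖y - z‖ = l * D := yz_norm hl0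
  have hQ : 0 ≤ l * (1 - l) * D ^ 2 := by positivity
  rcases le_or_gt ‖z - p‖ (2 * t) with hin | hout
  · have ha := aff_combo (u := u) (p := p) (x := x) (y := y) (l := l)
    have e := prod_defect (a := fun w => (inner ℝ u (w - p) : ℝ)) (g := gb p t) (x := x) (y := y)
      (z := z) (l := l) ha
    unfold fb
    rw [e]
    have b1 := gb_defect (p := p) ht (x := x) (y := y) hl0 hl1
    have b2 := gb_lip (p := p) ht0 x y
    have b3 := hslab z hzG hin
    have b4 : |(inner ℝ u (x - p) : ℝ) - inner ℝ u (y - p)| ≤ D := by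
      rw [← inner_sub_right, sub_sub_sub_cancel_right]
      have := abs_real_inner_le_norm u (x - y)
      rwa [hu, one_mul] at this
    refine (abs_sub _ _).trans ?_
    rw [abs_mul, abs_mul (l * (1 - l)), abs_mul _ (gb p t x - gb p t y),
      abs_of_nonneg (show 0 ≤ l * (1 - l) by positivity)]
    calc |(inner ℝ u (z - p) : ℝ)| * |gb p t z - (l * gb p t x + (1 - l) * gb p t y)| +
          l * (1 - l) * (|(inner ℝ u (x - p) : ℝ) - inner ℝ u (y - p)| *
            |gb p t x - gb p t y|) ≤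
        C * (12 * (l * (1 - l) * D ^ 2)) + l * (1 - l) * (D * (4 * D)) := by gcongr
      _ = (12 * C + 4) * (l * (1 - l) * D ^ 2) := by ring
  · have h1 : t ≤ ‖x - p‖ := by
      have := norm_sub_le_norm_sub_add_norm_sub z x p
      rw [norm_sub_rev z x, hxz] at this
      nlinarith
    have h2 : t ≤ ‖y - p‖ := by
      have := norm_sub_le_norm_sub_add_norm_sub z y p
      rw [norm_sub_rev z y, hyz] at this
      nlinarith
    unfold fb
    rw [gb_zero ht0 h1, gb_zero ht0 h2, gb_zero ht0 (show t ≤ ‖z - p‖ by linarith)]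
    simp only [mul_zero, add_zero, sub_zero, abs_zero]
    positivity

/-- an endpoint far away -/
lemma fb_out (ht : 1 ≤ t) (hC : 0 ≤ C) (hconv : Convex ℝ G)
    (hslab : ∀ y ∈ G, ‖y - p‖ ≤ 2 * t → |(inner ℝ u (y - p) : ℝ)| ≤ C) {x y : E} (hx : x ∈ G)
    (hy : y ∈ G) {l : ℝ} (hl0 : 0 ≤ l) (hl1 : l ≤ 1) (hxo : 2 * t < ‖x - p‖) :
    |fb p u t (l • x + (1 - l) • y) - (l * fb p u t x + (1 - l) * fb p u t y)| ≤
      10 * C * (l * (1 - l) * ‖x - y‖) := by
  have ht0 : 0 < t := by linarith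
  have hm : 0 ≤ 1 - l := by linarith
  set z := l • x + (1 - l) • y with hz
  set D := ‖x - y‖ with hDdef
  have hD0 : 0 ≤ D := norm_nonneg _
  have hzG : z ∈ G := hconv hx hy hl0 hm (by ring)
  have hxz : ‖x - z‖ = (1 - l) * D := xz_norm hl1
  have hyz : ‖y - z‖ = l * D := yz_norm hl0
  have hfx : fb p u t x = 0 := by unfold fb; rw [gb_zero ht0 (by linarith), mul_zero]
  have hQ : 0 ≤ l * (1 - l) * D := by positivity
  have hgx : gb p t x = 0 := gb_zero ht0 (by linarith)
  rw [hfx, mul_zero, zero_add]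
  rcases le_or_gt t ‖z - p‖ with hzo | hzi
  · have hfz : fb p u t z = 0 := by unfold fb; rw [gb_zero ht0 hzo, mul_zero]
    rw [hfz, zero_sub, abs_neg, abs_mul, abs_of_nonneg hm]
    rcases le_or_gt t ‖y - p‖ with hyo | hyi
    · have hfy : fb p u t y = 0 := by unfold fb; rw [gb_zero ht0 hyo, mul_zero]
      rw [hfy, abs_zero, mul_zero]
      positivity
    · have h1 := hslab y hy (by linarith)
      have h2 := gb_lip (p := p) ht0 y z
      rw [gb_zero ht0 hzo, sub_zero, hyz] at h2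
      unfold fb
      rw [abs_mul]
      calc (1 - l) * (|(inner ℝ u (y - p) : ℝ)| * |gb p t y|) ≤
          (1 - l) * (C * (4 * (l * D))) := by gcongr
        _ = 4 * C * (l * (1 - l) * D) := by ring
        _ ≤ 10 * C * (l * (1 - l) * D) := by gcongr; norm_num
  · -- the slope of the affine function along the segment is small
    have hxz_t : t ≤ ‖x - z‖ := by
      have := norm_sub_le_norm_sub_add_norm_sub x z p
      linarith
    have hpos : 0 < ‖x - z‖ := by linarith
    have hD' : 0 < (1 - l) * D := by rw [← hxz]; exact hpos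
    have hslope : t * |(inner ℝ u (x - y) : ℝ)| ≤ 2 * C * D := by
      set s : ℝ := t / ‖x - z‖ with hs
      have hs0 : 0 ≤ s := by positivity
      have hs1 : s ≤ 1 := (div_le_one hpos).mpr hxz_t
      set q : E := s • x + (1 - s) • z with hq
      have hqG : q ∈ G := hconv hx hzG hs0 (by linarith) (by ring)
      have hqz : ‖q - z‖ = t := by
        have e : q - z = s • (x - z) := by rw [hq]; module
        rw [e, norm_smul, Real.norm_of_nonneg hs0, hs, div_mul_cancel₀ _ hpos.ne']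
      have hqp : ‖q - p‖ ≤ 2 * t := by
        have := norm_sub_le_norm_sub_add_norm_sub q z p
        linarith
      have h1 := hslab q hqG hqp
      have h2 := hslab z hzG (by linarith)
      have e : (inner ℝ u (q - p) : ℝ) - inner ℝ u (z - p) = s * ((1 - l) * inner ℝ u (x - y)) := by
        rw [← inner_sub_right, ← real_inner_smul_right, ← real_inner_smul_right]
        congr 1
        rw [hq, hz]
        module
      have h3 : |s * ((1 - l) * inner ℝ u (x - y))| ≤ 2 * C := by
        rw [← e]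
        refine (abs_sub _ _).trans ?_
        linarith
      rw [abs_mul, abs_mul, abs_of_nonneg hs0, abs_of_nonneg hm, hs, hxz] at h3
      rw [div_mul_eq_mul_div, div_le_iff₀ hD'] at h3
      have hml : 0 < 1 - l := by
        rcases hm.eq_or_lt with h | h
        · rw [← h, zero_mul] at hD'; exact absurd hD' (lt_irrefl _)
        · exact h
      have h4 : (1 - l) * (t * |(inner ℝ u (x - y) : ℝ)|) ≤ (1 - l) * (2 * C * D) := by
        linarith
      exact le_of_mul_le_mul_left h4 hml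
    have h2 := gb_lip (p := p) ht0 z x
    rw [hgx, sub_zero, norm_sub_rev z x, hxz] at h2
    have h1 := hslab z hzG (by linarith)
    have h3 := gb_lip (p := p) ht0 y z
    rw [hyz] at h3
    have h4 : |fb p u t z| ≤ C * (4 * ((1 - l) * D)) := by
      unfold fb; rw [abs_mul]; gcongr
    have h5 : |fb p u t y - fb p u t z| ≤ C * (4 * (l * D)) + 2 * C * (l * D) := by
      have e : fb p u t y - fb p u t z = inner ℝ u (z - p) * (gb p t y - gb p t z) +
          (inner ℝ u (y - p) - inner ℝ u (z - p)) * gb p t y := by unfold fb; ring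
      have e2 : (inner ℝ u (y - p) : ℝ) - inner ℝ u (z - p) = -(l * inner ℝ u (x - y)) := by
        rw [← inner_sub_right, ← real_inner_smul_right, ← inner_neg_right]
        congr 1
        rw [hz]
        module
      rw [e, e2]
      refine (abs_add_le _ _).trans ?_
      rw [abs_mul, abs_mul, abs_neg, abs_mul, abs_of_nonneg hl0, abs_of_nonneg (gb_nonneg ht0 y)]
      have h6 := gb_le (p := p) ht0 y
      have h7 : l * |(inner ℝ u (x - y) : ℝ)| * gb p t y ≤ 2 * C * (l * D) := by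
        calc l * |(inner ℝ u (x - y) : ℝ)| * gb p t y ≤ l * |(inner ℝ u (x - y) : ℝ)| * t := by
              gcongr
          _ = l * (t * |(inner ℝ u (x - y) : ℝ)|) := by ring
          _ ≤ l * (2 * C * D) := by gcongr
          _ = 2 * C * (l * D) := by ring
      have h8 : |(inner ℝ u (z - p) : ℝ)| * |gb p t y - gb p t z| ≤ C * (4 * (l * D)) := by
        gcongr
      linarith
    have e : fb p u t z - (1 - l) * fb p u t y = l * fb p u t z -
        (1 - l) * (fb p u t y - fb p u t z) := by ring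
    rw [e]
    refine (abs_sub _ _).trans ?_
    rw [abs_mul, abs_mul, abs_of_nonneg hl0, abs_of_nonneg hm]
    calc l * |fb p u t z| + (1 - l) * |fb p u t y - fb p u t z| ≤
        l * (C * (4 * ((1 - l) * D))) + (1 - l) * (C * (4 * (l * D)) + 2 * C * (l * D)) := by
          gcongr
      _ = 10 * C * (l * (1 - l) * D) := by ring

/-- all distances, first order bound -/
lemma fb_long (ht : 1 ≤ t) (hC : 0 ≤ C) (hconv : Convex ℝ G)
    (hslab : ∀ y ∈ G, ‖y - p‖ ≤ 2 * t → |(inner ℝ u (y - p) : ℝ)| ≤ C) {x y : E} (hx : x ∈ G)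
    (hy : y ∈ G) {l : ℝ} (hl0 : 0 ≤ l) (hl1 : l ≤ 1) :
    |fb p u t (l • x + (1 - l) • y) - (l * fb p u t x + (1 - l) * fb p u t y)| ≤
      16 * C * (l * (1 - l) * ‖x - y‖) := by
  have ht0 : 0 < t := by linarith
  have hm : 0 ≤ 1 - l := by linarith
  have hD0 : 0 ≤ ‖x - y‖ := norm_nonneg _
  have hQ : 0 ≤ l * (1 - l) * ‖x - y‖ := by positivity
  rcases le_or_gt ‖x - p‖ (2 * t) with hxi | hxo
  · rcases le_or_gt ‖y - p‖ (2 * t) with hyi | hyo
    · set z := l • x + (1 - l) • y with hz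
      set D := ‖x - y‖ with hDdef
      have hzG : z ∈ G := hconv hx hy hl0 hm (by ring)
      have hxz : ‖x - z‖ = (1 - l) * D := xz_norm hl1
      have hyz : ‖y - z‖ = l * D := yz_norm hl0
      have hzp : ‖z - p‖ ≤ 2 * t := by
        have e1 : z - p = l • (x - p) + (1 - l) • (y - p) := by rw [hz]; module
        rw [e1]
        refine (norm_add_le _ _).trans ?_
        rw [norm_smul, norm_smul, Real.norm_of_nonneg hl0, Real.norm_of_nonneg hm]
        nlinarith
      have ha := aff_combo (u := u) (p := p) (x := x) (y := y) (l := l)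
      have e := prod_defect (a := fun w => (inner ℝ u (w - p) : ℝ)) (g := gb p t) (x := x) (y := y)
        (z := z) (l := l) ha
      unfold fb
      rw [e]
      have b1 := gb_lip (p := p) ht0 z x
      have b2 := gb_lip (p := p) ht0 z y
      rw [norm_sub_rev z x, hxz] at b1
      rw [norm_sub_rev z y, hyz] at b2
      have b3 := gb_lip (p := p) ht0 x y
      have c1 := hslab x hx hxi
      have c2 := hslab y hy hyi
      have c3 := hslab z hzG hzp
      have d1 : |gb p t z - (l * gb p t x + (1 - l) * gb p t y)| ≤ 8 * (l * (1 - l) * D) := by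
        have e : gb p t z - (l * gb p t x + (1 - l) * gb p t y) =
            l * (gb p t z - gb p t x) + (1 - l) * (gb p t z - gb p t y) := by ring
        rw [e]
        refine (abs_add_le _ _).trans ?_
        rw [abs_mul, abs_mul, abs_of_nonneg hl0, abs_of_nonneg hm]
        calc l * |gb p t z - gb p t x| + (1 - l) * |gb p t z - gb p t y| ≤
            l * (4 * ((1 - l) * D)) + (1 - l) * (4 * (l * D)) := by gcongr
          _ = 8 * (l * (1 - l) * D) := by ring
      have d2 : |(inner ℝ u (x - p) : ℝ) - inner ℝ u (y - p)| ≤ 2 * C := by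
        refine (abs_sub _ _).trans ?_
        linarith
      refine (abs_sub _ _).trans ?_
      rw [abs_mul, abs_mul (l * (1 - l)), abs_mul _ (gb p t x - gb p t y),
        abs_of_nonneg (show 0 ≤ l * (1 - l) by positivity)]
      calc |(inner ℝ u (z - p) : ℝ)| * |gb p t z - (l * gb p t x + (1 - l) * gb p t y)| +
            l * (1 - l) * (|(inner ℝ u (x - p) : ℝ) - inner ℝ u (y - p)| *
              |gb p t x - gb p t y|) ≤
          C * (8 * (l * (1 - l) * D)) + l * (1 - l) * (2 * C * (4 * D)) := by gcongr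
        _ = 16 * C * (l * (1 - l) * D) := by ring
    · have := fb_out (u := u) ht hC hconv hslab hy hx (l := 1 - l) hm (by linarith) hyo
      rw [show (1 - l) • y + (1 - (1 - l)) • x = l • x + (1 - l) • y by module,
        show (1 - (1 - l)) = l by ring, norm_sub_rev y x, add_comm ((1 - l) * fb p u t y)] at this
      refine this.trans ?_
      have : 10 * C * ((1 - l) * l * ‖x - y‖) = 10 * (C * (l * (1 - l) * ‖x - y‖)) := by ring
      rw [this]
      have h0 : 0 ≤ C * (l * (1 - l) * ‖x - y‖) := by positivity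
      linarith
  · have := fb_out (u := u) ht hC hconv hslab hx hy hl0 hl1 hxo
    refine this.trans ?_
    gcongr
    norm_num

end block

end Pool.Agent.H34.Scv
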