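import Pool.Agent.H34.Scv.SB

/-!
The positive direction: on a convex set all of whose points are at bounded distance from the centres
of large balls of the set there is a concave modulus `ω` with `ω(t) / t → 0` for which every
function that is `ω`-semiconvex and `ω`-semiconcave is in `C^{1,ω}`.
-/

namespace Pool.Agent.H34.Scv

open Set Filter Topology

/-- For every `M` the points of `G` are at bounded distance from the centres of the balls of radius
`M` contained in `G`. -/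
def Fat {E : Type*} [NormedAddCommGroup E] (G : Set E) : Prop :=
  ∀ M : ℝ, 0 < M → ∃ T : ℝ, ∀ x ∈ G, ∃ z : E, ‖z - x‖ ≤ T ∧ Metric.ball z M ⊆ G

section modulus

/-- coefficients -/
noncomputable def ca (τ : ℕ → ℝ) (j : ℕ) : ℝ := if j = 0 then 0 else 2 * (1 / 2 : ℝ) ^ j * τ j

/-- the modulus `inf_j (2^{-j} t + 2 · 2^{-j} τ_j)` -/
noncomputable def om (τ : ℕ → ℝ) (t : ℝ) : ℝ := ⨅ j : ℕ, ((1 / 2 : ℝ) ^ j * t + ca τ j)

variable {τ : ℕ → ℝ} (h1 : 1 ≤ τ 0) (h4 : ∀ j, 4 * τ j ≤ τ (j + 1))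
include h1 h4

lemma tau_pos (j : ℕ) : 1 ≤ τ j := by
  induction j with
  | zero => exact h1
  | succ j ih => linarith [h4 j]

lemma ca_nonneg (j : ℕ) : 0 ≤ ca τ j := by
  unfold ca
  split_ifs
  · exact le_rfl
  · have := tau_pos h1 h4 j
    positivity

lemma om_bdd {t : ℝ} (ht : 0 ≤ t) :
    BddBelow (Set.range fun j : ℕ => ((1 / 2 : ℝ) ^ j * t + ca τ j)) := by
  refine ⟨0, ?_⟩
  rintro _ ⟨j, rfl⟩
  have := ca_nonneg h1 h4 j
  positivity

lemma om_le {t : ℝ} (ht : 0 ≤ t) (j : ℕ) : om τ t ≤ (1 / 2 : ℝ) ^ j * t + ca τ j :=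
  ciInf_le (om_bdd h1 h4 ht) j

lemma om_le_self {t : ℝ} (ht : 0 ≤ t) : om τ t ≤ t := by
  have := om_le h1 h4 ht 0
  simpa [ca] using this

lemma om_nonneg {t : ℝ} (ht : 0 ≤ t) : 0 ≤ om τ t := by
  apply le_ciInf
  intro j
  have := ca_nonneg h1 h4 j
  positivity

lemma om_mono {s t : ℝ} (hs : 0 ≤ s) (hst : s ≤ t) : om τ s ≤ om τ t := by
  apply le_ciInf
  intro j
  refine (om_le h1 h4 hs j).trans ?_
  gcongr

lemma om_modulus : IsModulus (om τ) := by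
  refine ⟨fun s t hs hst => om_mono h1 h4 hs hst, fun t ht => om_nonneg h1 h4 ht, ?_⟩
  have hid : Tendsto (fun t : ℝ => t) (𝓝[>] 0) (𝓝 0) :=
    tendsto_id.mono_left nhdsWithin_le_nhds
  refine tendsto_of_tendsto_of_tendsto_of_le_of_le' tendsto_const_nhds hid ?_ ?_
  · filter_upwards [self_mem_nhdsWithin] with t ht
    exact om_nonneg h1 h4 (le_of_lt ht)
  · filter_upwards [self_mem_nhdsWithin] with t ht
    exact om_le_self h1 h4 (le_of_lt ht)

lemma om_concave : ConcaveOn ℝ (Ici 0) (om τ) := by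
  refine ⟨convex_Ici 0, ?_⟩
  intro x hx y hy a b ha hb hab
  have hx' : (0 : ℝ) ≤ x := hx
  have hy' : (0 : ℝ) ≤ y := hy
  apply le_ciInf
  intro j
  have e1 := om_le h1 h4 hx' j
  have e2 := om_le h1 h4 hy' j
  simp only [smul_eq_mul]
  have : (1 / 2 : ℝ) ^ j * (a * x + b * y) + ca τ j =
      a * ((1 / 2 : ℝ) ^ j * x + ca τ j) + b * ((1 / 2 : ℝ) ^ j * y + ca τ j) := by
    have : ca τ j = (a + b) * ca τ j := by rw [hab, one_mul]
    linear_combination (1 - a - b) * 0 + this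
  rw [this]
  have := mul_le_mul_of_nonneg_left e1 ha
  have := mul_le_mul_of_nonneg_left e2 hb
  linarith

lemma ca_mono_aux (j k : ℕ) : (1 / 2 : ℝ) ^ j * τ (j + 1) ≤ ca τ (j + 1 + k) := by
  induction k with
  | zero =>
    simp only [ca, add_zero, Nat.add_eq_zero_iff, one_ne_zero, and_false, if_false]
    rw [pow_succ]
    linarith
  | succ k ih =>
    refine ih.trans ?_
    have e1 : ca τ (j + 1 + k) = 2 * (1 / 2 : ℝ) ^ (j + 1 + k) * τ (j + 1 + k) := by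
      unfold ca; rw [if_neg (by omega)]
    have e2 : ca τ (j + 1 + (k + 1)) =
        2 * (1 / 2 : ℝ) ^ (j + 1 + k + 1) * τ (j + 1 + k + 1) := by
      unfold ca
      rw [if_neg (by omega), show j + 1 + (k + 1) = j + 1 + k + 1 by omega]
    rw [e1, e2]
    have e3 := h4 (j + 1 + k)
    have e4 := tau_pos h1 h4 (j + 1 + k)
    rw [pow_succ]
    have e5 : (0 : ℝ) < (1 / 2 : ℝ) ^ (j + 1 + k) := by positivity
    nlinarith [mul_le_mul_of_nonneg_left e3 e5.le, mul_pos e5 (show (0:ℝ) < τ (j + 1 + k) by linarith)]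

/-- lower bound -/
lemma om_lower (j : ℕ) {t : ℝ} (ht : 0 ≤ t) (htj : t ≤ τ (j + 1)) :
    (1 / 2 : ℝ) ^ j * t ≤ om τ t := by
  apply le_ciInf
  intro i
  rcases le_or_gt i j with hij | hij
  · have e1 : (1 / 2 : ℝ) ^ j ≤ (1 / 2 : ℝ) ^ i :=
      pow_le_pow_of_le_one (by norm_num) (by norm_num) hij
    have e2 := mul_le_mul_of_nonneg_right e1 ht
    have := ca_nonneg h1 h4 i
    linarith
  · obtain ⟨k, rfl⟩ : ∃ k, i = j + 1 + k := ⟨i - (j + 1), by omega⟩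
    have e1 := ca_mono_aux h1 h4 j k
    have e2 : (1 / 2 : ℝ) ^ j * t ≤ (1 / 2 : ℝ) ^ j * τ (j + 1) := by gcongr
    have e3 : 0 ≤ (1 / 2 : ℝ) ^ (j + 1 + k) * t := by positivity
    linarith

/-- upper bound -/
lemma om_upper (j : ℕ) {t : ℝ} (ht : τ j ≤ t) : om τ t ≤ 3 * (1 / 2 : ℝ) ^ j * t := by
  have h0 := tau_pos h1 h4 j
  have ht0 : 0 ≤ t := by linarith
  rcases Nat.eq_zero_or_pos j with rfl | hj
  · have := om_le_self h1 h4 ht0
    norm_num
    linarith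
  · have := om_le h1 h4 ht0 j
    unfold ca at this
    rw [if_neg (by omega)] at this
    have e : (1 / 2 : ℝ) ^ j * τ j ≤ (1 / 2 : ℝ) ^ j * t := by gcongr
    linarith

lemma om_small {t : ℝ} (ht : 0 ≤ t) (ht1 : t ≤ 1) : om τ t = t := by
  apply le_antisymm (om_le_self h1 h4 ht)
  have := om_lower h1 h4 0 ht (ht1.trans (tau_pos h1 h4 1))
  simpa using this

lemma om_tendsto : Tendsto (fun t : ℝ => om τ t / t) atTop (𝓝 0) := by
  rw [Metric.tendsto_atTop]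
  intro ε hε
  obtain ⟨j, hj⟩ := exists_pow_lt_of_lt_one (show 0 < ε / 3 by positivity)
    (show (1 / 2 : ℝ) < 1 by norm_num)
  refine ⟨τ j, fun t ht => ?_⟩
  have h0 := tau_pos h1 h4 j
  have ht0 : 0 < t := by linarith
  have e1 := om_upper h1 h4 j ht
  have e2 := om_nonneg h1 h4 ht0.le
  rw [Real.dist_eq, sub_zero, abs_of_nonneg (by positivity), div_lt_iff₀ ht0]
  have : 3 * (1 / 2 : ℝ) ^ j * t < ε * t := by
    apply mul_lt_mul_of_pos_right _ ht0
    linarith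
  linarith

end modulus

section main

variable {E : Type*} [NormedAddCommGroup E] [InnerProductSpace ℝ E]
variable {ω : ℝ → ℝ} {G : Set E} {f : E → ℝ} {F : E → E →L[ℝ] ℝ}

/-- one step inside the set -/
lemma step_bound (hω : IsModulus ω)
    (hF : ∀ x ∈ G, ∀ y ∈ G, |f y - f x - F x (y - x)| ≤ ‖y - x‖ * ω ‖y - x‖)
    {ρ : ℝ} (hρ : 0 < ρ) {p q : E} (hp : ∀ w, ‖w - p‖ ≤ ρ → w ∈ G) (hq : q ∈ G)
    (hpq : ‖q - p‖ ≤ ρ) : ‖F p - F q‖ ≤ 6 * ω (2 * ρ) := by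
  have hpG : p ∈ G := hp p (by simpa using hρ.le)
  have := ball_grad hω (z := p) (hF p hpG) (hF q hq) hp hρ le_rfl
    (by simpa using hρ.le) hpq
  rwa [div_self hρ.ne', mul_one] at this

/-- chains of steps -/
lemma chain_bound (hω : IsModulus ω) (hconv : Convex ℝ G)
    (hF : ∀ x ∈ G, ∀ y ∈ G, |f y - f x - F x (y - x)| ≤ ‖y - x‖ * ω ‖y - x‖)
    {ρ : ℝ} (hρ : 0 < ρ) {p q : E} (hp : ∀ w, ‖w - p‖ ≤ ρ → w ∈ G)
    (hq : ∀ w, ‖w - q‖ ≤ ρ → w ∈ G) {β : ℝ} (hβ : ω (2 * ρ) ≤ β * (2 * ρ)) :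
    ‖F p - F q‖ ≤ 12 * β * (‖p - q‖ + 2 * ρ) := by
  have hw : 0 ≤ ω (2 * ρ) := hω.2.1 _ (by positivity)
  have hβ0 : 0 ≤ β := by
    by_contra h
    push Not at h
    have : β * (2 * ρ) < 0 := mul_neg_of_neg_of_pos h (by positivity)
    linarith
  -- number of steps
  set N : ℕ := ⌈‖p - q‖ / ρ⌉₊ + 1 with hN
  have hN1 : ‖p - q‖ / ρ ≤ N := by
    rw [hN]; push_cast
    have := Nat.le_ceil (‖p - q‖ / ρ)
    linarith
  have hNpos : (0 : ℝ) < N := by rw [hN]; positivity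
  -- use ⌈⌉ + 1 points but pay only for ⌈⌉ ≤ x + 1: rework with N steps
  have hN2 : (N : ℝ) ≤ ‖p - q‖ / ρ + 2 := by
    rw [hN]; push_cast
    have := (Nat.ceil_lt_add_one (show 0 ≤ ‖p - q‖ / ρ by positivity)).le
    linarith
  set c : ℕ → E := fun i => p + ((i : ℝ) / N) • (q - p) with hc
  have hcball : ∀ i, i ≤ N → ∀ w, ‖w - c i‖ ≤ ρ → w ∈ G := by
    intro i hi w hwc
    have hl0 : (0 : ℝ) ≤ (i : ℝ) / N := by positivity
    have hl1 : (i : ℝ) / N ≤ 1 := by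
      rw [div_le_one hNpos]; exact_mod_cast hi
    set l : ℝ := (i : ℝ) / N
    have e : w = (1 - l) • (p + (w - c i)) + l • (q + (w - c i)) := by
      simp only [hc]
      module
    rw [e]
    apply hconv
    · exact hp _ (by simpa using hwc)
    · exact hq _ (by simpa using hwc)
    · linarith
    · exact hl0
    · ring
  have hstep : ∀ i, i < N → dist (F (c i)) (F (c (i + 1))) ≤ 6 * ω (2 * ρ) := by
    intro i hi
    rw [dist_eq_norm]
    apply step_bound hω hF hρ (hcball i hi.le)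
    · exact hcball (i + 1) hi _ (by simpa using hρ.le)
    · have e : c (i + 1) - c i = (1 / (N : ℝ)) • (q - p) := by
        simp only [hc]
        push_cast
        module
      rw [e, norm_smul, Real.norm_of_nonneg (by positivity), norm_sub_rev q p]
      rw [div_mul_eq_mul_div, one_mul, div_le_iff₀ hNpos]
      rw [div_le_iff₀ hρ] at hN1
      linarith
  have hsum := dist_le_range_sum_of_dist_le (f := fun i => F (c i)) N
    (d := fun _ => 6 * ω (2 * ρ)) (fun {i} hi => hstep i hi)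
  have h0 : c 0 = p := by simp [hc]
  have h1 : c N = q := by
    simp only [hc]
    rw [div_self hNpos.ne']
    module
  simp only [h0, h1, Finset.sum_const, Finset.card_range, nsmul_eq_mul] at hsum
  rw [dist_eq_norm] at hsum
  refine hsum.trans ?_
  calc (N : ℝ) * (6 * ω (2 * ρ)) ≤ (‖p - q‖ / ρ + 2) * (6 * (β * (2 * ρ))) := by gcongr
    _ = 12 * β * (‖p - q‖ + 2 * ρ) := by field_simp; ring

/-- points of `G` have small closed balls in `G` -/
lemma small_ball (hG : IsOpen G) {p : E} (hp : p ∈ G) :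
    ∃ r : ℝ, 0 < r ∧ ∀ ρ, ρ ≤ r → ∀ w, ‖w - p‖ ≤ ρ → w ∈ G := by
  obtain ⟨r, hr, hb⟩ := Metric.isOpen_iff.mp hG p hp
  refine ⟨r / 2, by positivity, fun ρ hρ w hw => hb ?_⟩
  rw [mem_ball_iff_norm]
  linarith

/-- the linear case -/
lemma lip_bound (hω : IsModulus ω) (hG : IsOpen G) (hconv : Convex ℝ G)
    (hF : ∀ x ∈ G, ∀ y ∈ G, |f y - f x - F x (y - x)| ≤ ‖y - x‖ * ω ‖y - x‖)
    (hlin : ∀ t, 0 ≤ t → ω t ≤ t) {p q : E} (hp : p ∈ G) (hq : q ∈ G) :
    ‖F p - F q‖ ≤ 12 * ‖p - q‖ := by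
  obtain ⟨r, hr, hbr⟩ := small_ball hG hp
  obtain ⟨s, hs, hbs⟩ := small_ball hG hq
  apply le_of_forall_pos_le_add
  intro ε hε
  set ρ : ℝ := min (min r s) (ε / 24) with hρdef
  have hρ : 0 < ρ := by positivity
  have hρ1 : ρ ≤ r := (min_le_left _ _).trans (min_le_left _ _)
  have hρ2 : ρ ≤ s := (min_le_left _ _).trans (min_le_right _ _)
  have hρ3 : ρ ≤ ε / 24 := min_le_right _ _
  have := chain_bound hω hconv hF hρ (hbr ρ hρ1) (hbs ρ hρ2) (β := 1)
    (by simpa using hlin (2 * ρ) (by positivity))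
  linarith

/-- the multi-scale estimate -/
lemma scale_bound {τ : ℕ → ℝ} (h1 : 1 ≤ τ 0) (h4 : ∀ j, 4 * τ j ≤ τ (j + 1))
    (hG : IsOpen G) (hconv : Convex ℝ G)
    (hF : ∀ x ∈ G, ∀ y ∈ G, |f y - f x - F x (y - x)| ≤ ‖y - x‖ * om τ ‖y - x‖)
    (hfat : ∀ j, ∀ x ∈ G, ∃ z : E, ‖z - x‖ ≤ τ (j + 1) ∧ ∀ w, ‖w - z‖ ≤ τ j → w ∈ G) (j : ℕ) :
    ∀ x ∈ G, ∀ z : E, ‖z - x‖ ≤ τ (j + 1) → (∀ w, ‖w - z‖ ≤ τ j → w ∈ G) →
      ‖F x - F z‖ ≤ 200 * (1 / 2 : ℝ) ^ j * τ (j + 1) := by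
  have hω := om_modulus h1 h4
  have hlin : ∀ t, 0 ≤ t → om τ t ≤ t := fun t ht => om_le_self h1 h4 ht
  induction j with
  | zero =>
    intro x hx z hz hb
    have hzG : z ∈ G := hb z (by simpa using (by linarith [tau_pos h1 h4 0] : (0 : ℝ) ≤ τ 0))
    have := lip_bound hω hG hconv hF hlin hx hzG
    rw [norm_sub_rev x z] at this
    have h0 := tau_pos h1 h4 1
    simp only [pow_zero, mul_one, zero_add] at hz ⊢
    linarith
  | succ j ih =>
    intro x hx z hz hb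
    obtain ⟨z', hz', hb'⟩ := hfat j x hx
    have e1 := ih x hx z' hz' hb'
    have t0 := tau_pos h1 h4 j
    have t1 := h4 j
    have t2 := h4 (j + 1)
    have hb2 : ∀ w, ‖w - z‖ ≤ τ j → w ∈ G := fun w hw => hb w (by linarith)
    have e2 := chain_bound hω hconv hF (show 0 < τ j by linarith) hb' hb2
      (β := 3 * (1 / 2 : ℝ) ^ j) (om_upper h1 h4 j (by linarith))
    have e3 : ‖z' - z‖ ≤ τ (j + 1) + τ (j + 1 + 1) := by
      have := norm_sub_le_norm_sub_add_norm_sub z' x z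
      rw [norm_sub_rev x z] at this
      linarith
    have e4 : ‖F x - F z‖ ≤ ‖F x - F z'‖ + ‖F z' - F z‖ := norm_sub_le_norm_sub_add_norm_sub _ _ _
    have hP : (0 : ℝ) < (1 / 2 : ℝ) ^ j := by positivity
    have e5 : 12 * (3 * (1 / 2 : ℝ) ^ j) * (‖z' - z‖ + 2 * τ j) ≤
        12 * (3 * (1 / 2 : ℝ) ^ j) * (11 / 8 * τ (j + 1 + 1)) := by
      gcongr
      linarith
    have e6 : 200 * (1 / 2 : ℝ) ^ j * τ (j + 1) ≤ 200 * (1 / 2 : ℝ) ^ j * (τ (j + 1 + 1) / 4) := by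
      gcongr
      linarith
    rw [pow_succ]
    have e7 : 0 < (1 / 2 : ℝ) ^ j * τ (j + 1 + 1) := by
      have : 0 < τ (j + 1 + 1) := by linarith
      positivity
    nlinarith

theorem fat_C1 [FiniteDimensional ℝ E] {τ : ℕ → ℝ} (h1 : 1 ≤ τ 0) (h4 : ∀ j, 4 * τ j ≤ τ (j + 1))
    (hG : IsOpen G) (hconv : Convex ℝ G)
    (hfat : ∀ j, ∀ x ∈ G, ∃ z : E, ‖z - x‖ ≤ τ (j + 1) ∧ ∀ w, ‖w - z‖ ≤ τ j → w ∈ G)
    (hs1 : Semiconvex (om τ) G f) (hs2 : Semiconcave (om τ) G f) : IsC1 (om τ) G f := by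
  have hω := om_modulus h1 h4
  have hlin : ∀ t, 0 ≤ t → om τ t ≤ t := fun t ht => om_le_self h1 h4 ht
  have hd : ∀ x ∈ G, DifferentiableAt ℝ f x ∧
      ∀ y ∈ G, |f y - f x - fderiv ℝ f x (y - x)| ≤ ‖y - x‖ * om τ ‖y - x‖ := by
    intro x hx
    obtain ⟨L, hL⟩ := exists_grad hω hG hs1 hs2 hx
    have hd := hasFDeriv_of hω hG hx L hL
    refine ⟨hd.differentiableAt, ?_⟩
    rw [hd.fderiv]; exact hL
  have hF : ∀ x ∈ G, ∀ y ∈ G, |f y - f x - (fderiv ℝ f x) (y - x)| ≤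
      ‖y - x‖ * om τ ‖y - x‖ := fun x hx => (hd x hx).2
  refine ⟨1100, by norm_num, fun x hx => (hd x hx).1, ?_⟩
  intro x hx y hy
  set t : ℝ := ‖x - y‖ with ht
  have ht0 : 0 ≤ t := norm_nonneg _
  rcases le_or_gt t (τ 1) with hsm | hlg
  · have e1 := lip_bound hω hG hconv hF hlin hx hy
    have e2 := om_lower h1 h4 0 ht0 hsm
    rw [pow_zero, one_mul] at e2
    linarith
  · -- choose the scale
    have hunb : ∃ k : ℕ, t < τ (k + 2) := by
      have hgrow : ∀ k : ℕ, (k : ℝ) + 1 ≤ τ k := by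
        intro k
        induction k with
        | zero => simpa using h1
        | succ k ih => push_cast; have := h4 k; linarith
      obtain ⟨k, hk⟩ := exists_nat_gt t
      refine ⟨k, ?_⟩
      have := hgrow (k + 2)
      push_cast at this
      linarith
    classical
    set j := Nat.find hunb with hj
    have hj1 : t < τ (j + 2) := Nat.find_spec hunb
    have hj0 : τ (j + 1) ≤ t := by
      rcases Nat.eq_zero_or_pos j with h | h
      · rw [h]; exact hlg.le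
      · have := Nat.find_min hunb (show j - 1 < j by omega)
        rw [not_lt, show j - 1 + 2 = j + 1 by omega] at this
        exact this
    obtain ⟨z, hz, hbz⟩ := hfat j x hx
    obtain ⟨z', hz', hbz'⟩ := hfat j y hy
    have e1 := scale_bound h1 h4 hG hconv hF hfat j x hx z hz hbz
    have e2 := scale_bound h1 h4 hG hconv hF hfat j y hy z' hz' hbz'
    have t0 := tau_pos h1 h4 j
    have t1 := h4 j
    have e3 := chain_bound hω hconv hF (show 0 < τ j by linarith) hbz hbz'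
      (β := 3 * (1 / 2 : ℝ) ^ j) (om_upper h1 h4 j (by linarith))
    have e4 : ‖z - z'‖ ≤ 3 * t := by
      have a1 := norm_sub_le_norm_sub_add_norm_sub z x z'
      have a2 := norm_sub_le_norm_sub_add_norm_sub x y z'
      rw [norm_sub_rev y z'] at a2
      linarith
    have e5 := om_lower h1 h4 (j + 1) ht0 hj1.le
    have e6 : ‖fderiv ℝ f x - fderiv ℝ f y‖ ≤ ‖fderiv ℝ f x - fderiv ℝ f z‖ +
        ‖fderiv ℝ f z - fderiv ℝ f z'‖ + ‖fderiv ℝ f y - fderiv ℝ f z'‖ := by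
      have a1 := norm_sub_le_norm_sub_add_norm_sub (fderiv ℝ f x) (fderiv ℝ f z) (fderiv ℝ f y)
      have a2 := norm_sub_le_norm_sub_add_norm_sub (fderiv ℝ f z) (fderiv ℝ f z') (fderiv ℝ f y)
      rw [norm_sub_rev (fderiv ℝ f z') (fderiv ℝ f y)] at a2
      linarith
    have hP : (0 : ℝ) < (1 / 2 : ℝ) ^ j := by positivity
    have e7 : 12 * (3 * (1 / 2 : ℝ) ^ j) * (‖z - z'‖ + 2 * τ j) ≤
        12 * (3 * (1 / 2 : ℝ) ^ j) * (7 / 2 * t) := by
      gcongr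
      linarith
    have e8 : 200 * (1 / 2 : ℝ) ^ j * τ (j + 1) ≤ 200 * (1 / 2 : ℝ) ^ j * t := by gcongr
    rw [pow_succ] at e5
    have e9 : 0 ≤ (1 / 2 : ℝ) ^ j * t := by positivity
    nlinarith

/-- **Fat sets**: there is a good concave modulus. -/
theorem fat_good [FiniteDimensional ℝ E] (hG : IsOpen G) (hconv : Convex ℝ G) (hfat : Fat G) :
    ∃ ω : ℝ → ℝ, IsModulus ω ∧ ConcaveOn ℝ (Ici 0) ω ∧ (∀ t, 0 ≤ t → t ≤ 1 → ω t = t) ∧
      Tendsto (fun t => ω t / t) atTop (𝓝 0) ∧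
      ∀ f : E → ℝ, Semiconvex ω G f → Semiconcave ω G f → IsC1 ω G f := by
  have hstep : ∀ s : ℝ, 0 < s → ∃ T : ℝ, 4 * s ≤ T ∧
      ∀ x ∈ G, ∃ z : E, ‖z - x‖ ≤ T ∧ ∀ w, ‖w - z‖ ≤ s → w ∈ G := by
    intro s hs
    obtain ⟨T, hT⟩ := hfat (2 * s) (by positivity)
    refine ⟨max T (4 * s), le_max_right _ _, fun x hx => ?_⟩
    obtain ⟨z, hz1, hz2⟩ := hT x hx
    refine ⟨z, hz1.trans (le_max_left _ _), fun w hw => hz2 ?_⟩
    rw [mem_ball_iff_norm]
    linarith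
  choose! T hT4 hT using hstep
  set τ : ℕ → ℝ := fun j => Nat.rec 1 (fun _ s => T s) j with hτ
  have hτs : ∀ j, τ (j + 1) = T (τ j) := fun j => rfl
  have hτ1 : ∀ j, 1 ≤ τ j := by
    intro j
    induction j with
    | zero => exact le_rfl
    | succ j ih =>
      rw [hτs]
      have := hT4 (τ j) (by linarith)
      linarith
  have h4 : ∀ j, 4 * τ j ≤ τ (j + 1) := fun j => by
    rw [hτs]; exact hT4 _ (by linarith [hτ1 j])
  refine ⟨om τ, om_modulus (hτ1 0) h4, om_concave (hτ1 0) h4,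
    fun t h0 h1 => om_small (hτ1 0) h4 h0 h1, om_tendsto (hτ1 0) h4, fun f hs1 hs2 => ?_⟩
  apply fat_C1 (hτ1 0) h4 hG hconv _ hs1 hs2
  intro j x hx
  rw [hτs]
  exact hT (τ j) (by linarith [hτ1 j]) x hx

end main

end Pool.Agent.H34.Scv
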