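import Mathlib

/-!
Functions that are semiconvex and semiconcave with a modulus: definitions, and existence of the
derivative with the first order estimate.
-/

namespace Pool.Agent.H34.Scv

open Set Filter Topology

variable {E : Type*} [NormedAddCommGroup E] [InnerProductSpace ℝ E]

/-- The class `𝓜` of moduli: `ω : [0,∞) → [0,∞)` non-decreasing with `ω(t) → 0` as `t → 0+`
(only the values on `[0,∞)` matter). -/
def IsModulus (ω : ℝ → ℝ) : Prop :=
  (∀ s t, 0 ≤ s → s ≤ t → ω s ≤ ω t) ∧ (∀ t, 0 ≤ t → 0 ≤ ω t) ∧ Tendsto ω (𝓝[>] 0) (𝓝 0)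

/-- `f` is continuous on `G` and `ω`-semiconvex on `G`. -/
def Semiconvex (ω : ℝ → ℝ) (G : Set E) (f : E → ℝ) : Prop :=
  ContinuousOn f G ∧ ∀ x ∈ G, ∀ y ∈ G, ∀ l : ℝ, 0 ≤ l → l ≤ 1 →
    f (l • x + (1 - l) • y) ≤ l * f x + (1 - l) * f y + l * (1 - l) * ‖x - y‖ * ω ‖x - y‖

/-- `f` is `ω`-semiconcave on `G`: `-f` is `ω`-semiconvex. -/
def Semiconcave (ω : ℝ → ℝ) (G : Set E) (f : E → ℝ) : Prop :=
  Semiconvex ω G (fun x => - f x)

/-- `f ∈ C^{1,ω}(G)` (for open `G`): differentiable on `G` and `‖f'(x)-f'(y)‖ ≤ K ω(‖x-y‖)` for some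
`K > 0`. -/
def IsC1 (ω : ℝ → ℝ) (G : Set E) (f : E → ℝ) : Prop :=
  ∃ K : ℝ, 0 < K ∧ (∀ x ∈ G, DifferentiableAt ℝ f x) ∧
    ∀ x ∈ G, ∀ y ∈ G, ‖fderiv ℝ f x - fderiv ℝ f y‖ ≤ K * ω ‖x - y‖

/-- `G` contains no translate `a + C` of a convex cone `C` with nonempty interior (a cone is a set
`C` with `λ x ∈ C` for `x ∈ C`, `λ > 0`). -/
def ConeFree (G : Set E) : Prop :=
  ¬ ∃ (C : Set E) (a : E), (∀ x ∈ C, ∀ l : ℝ, 0 < l → l • x ∈ C) ∧ Convex ℝ C ∧
    (interior C).Nonempty ∧ (fun x => a + x) '' C ⊆ G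

/-- two-sided defect bound -/
lemma two_sided {ω : ℝ → ℝ} {G : Set E} {f : E → ℝ} (h1 : Semiconvex ω G f)
    (h2 : Semiconcave ω G f) {x y : E} (hx : x ∈ G) (hy : y ∈ G) {l : ℝ} (h0 : 0 ≤ l) (hl : l ≤ 1) :
    |f (l • x + (1 - l) • y) - (l * f x + (1 - l) * f y)| ≤
      l * (1 - l) * ‖x - y‖ * ω ‖x - y‖ := by
  rw [abs_le]
  have a := h1.2 x hx y hy l h0 hl
  have b := h2.2 x hx y hy l h0 hl
  dsimp only at b
  constructor <;> linarith

section deriv

variable {ω : ℝ → ℝ} {G : Set E} {f : E → ℝ}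

/-- difference quotients along a ray -/
lemma quot_bound (hω : IsModulus ω) (h1 : Semiconvex ω G f)
    (h2 : Semiconcave ω G f) {x h : E} (hx : x ∈ G) {s t : ℝ} (hs : 0 < s) (hst : s ≤ t)
    (hy : x + t • h ∈ G) :
    |(f (x + s • h) - f x) / s - (f (x + t • h) - f x) / t| ≤ ‖h‖ * ω (t * ‖h‖) := by
  have ht : 0 < t := lt_of_lt_of_le hs hst
  have hl0 : 0 ≤ s / t := by positivity
  have hl1 : s / t ≤ 1 := (div_le_one ht).mpr hst
  have key := two_sided h1 h2 hy hx hl0 hl1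
  have e1 : (s / t) • (x + t • h) + (1 - s / t) • x = x + s • h := by
    rw [smul_add, smul_smul, div_mul_cancel₀ _ ht.ne', sub_smul, one_smul]
    abel
  have e2 : ‖x + t • h - x‖ = t * ‖h‖ := by
    rw [add_sub_cancel_left, norm_smul, Real.norm_of_nonneg ht.le]
  rw [e1, e2] at key
  have e3 : (f (x + s • h) - f x) / s - (f (x + t • h) - f x) / t =
      (f (x + s • h) - (s / t * f (x + t • h) + (1 - s / t) * f x)) / s := by
    field_simp
    ring
  rw [e3, abs_div, abs_of_pos hs, div_le_iff₀ hs]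
  refine key.trans ?_
  have hw : 0 ≤ ω (t * ‖h‖) := hω.2.1 _ (by positivity)
  have e4 : s / t * (1 - s / t) * (t * ‖h‖) * ω (t * ‖h‖) =
      (1 - s / t) * (‖h‖ * ω (t * ‖h‖) * s) := by
    field_simp
  rw [e4]
  have h5 : 0 ≤ ‖h‖ * ω (t * ‖h‖) * s := by positivity
  nlinarith

lemma mod_tendsto (hω : IsModulus ω) (c : ℝ) (hc : 0 ≤ c) :
    Tendsto (fun t : ℝ => c * ω (t * c)) (𝓝[>] 0) (𝓝 0) := by
  rcases hc.eq_or_lt with rfl | hc
  · simp
  have h1 : Tendsto (fun t : ℝ => t * c) (𝓝[>] 0) (𝓝[>] 0) := by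
    rw [tendsto_nhdsWithin_iff]
    constructor
    · have : Tendsto (fun t : ℝ => t * c) (𝓝 0) (𝓝 (0 * c)) := tendsto_id.mul_const c
      rw [zero_mul] at this
      exact this.mono_left nhdsWithin_le_nhds
    · filter_upwards [self_mem_nhdsWithin] with t ht
      exact mul_pos ht hc
  have := (hω.2.2.comp h1).const_mul c
  simpa using this

/-- eventually `x + t h` lies in the open set `G` -/
lemma ev_mem (hG : IsOpen G) {x : E} (hx : x ∈ G) (h : E) :
    ∀ᶠ t : ℝ in 𝓝[>] 0, x + t • h ∈ G := by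
  have hc : ContinuousAt (fun t : ℝ => x + t • h) 0 := by fun_prop
  have h0 : x + (0 : ℝ) • h ∈ G := by simpa using hx
  exact (hc.eventually (hG.mem_nhds h0)).filter_mono nhdsWithin_le_nhds

lemma exists_dir (hω : IsModulus ω) (hG : IsOpen G) (h1 : Semiconvex ω G f)
    (h2 : Semiconcave ω G f) {x : E} (hx : x ∈ G) (h : E) :
    ∃ D : ℝ, Tendsto (fun t : ℝ => (f (x + t • h) - f x) / t) (𝓝[>] 0) (𝓝 D) := by
  apply cauchy_map_iff_exists_tendsto.mp
  rw [Metric.cauchy_iff]
  refine ⟨inferInstance, fun ε hε => ?_⟩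
  have hev := (mod_tendsto hω ‖h‖ (norm_nonneg h)).eventually (gt_mem_nhds (half_pos hε))
  obtain ⟨t, ht⟩ := ((hev.and (ev_mem hG hx h)).and self_mem_nhdsWithin).exists
  obtain ⟨⟨ht1, ht2⟩, ht3⟩ := ht
  have ht0 : 0 < t := ht3
  refine ⟨(fun s : ℝ => (f (x + s • h) - f x) / s) '' (Ioc 0 t), image_mem_map ?_, ?_⟩
  · exact Ioc_mem_nhdsGT ht0
  · rintro _ ⟨a, ha, rfl⟩ _ ⟨b, hb, rfl⟩
    have qa := quot_bound hω h1 h2 hx ha.1 ha.2 ht2
    have qb := quot_bound hω h1 h2 hx hb.1 hb.2 ht2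
    rw [Real.dist_eq]
    have := abs_sub_le ((f (x + a • h) - f x) / a) ((f (x + t • h) - f x) / t)
      ((f (x + b • h) - f x) / b)
    rw [abs_sub_comm ((f (x + t • h) - f x) / t)] at this
    linarith

/-- Existence of the first order approximation. -/
theorem exists_grad [FiniteDimensional ℝ E] (hω : IsModulus ω) (hG : IsOpen G)
    (h1 : Semiconvex ω G f) (h2 : Semiconcave ω G f) {x : E} (hx : x ∈ G) :
    ∃ L : E →L[ℝ] ℝ, ∀ y ∈ G, |f y - f x - L (y - x)| ≤ ‖y - x‖ * ω ‖y - x‖ := by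
  choose D hD using fun h => exists_dir hω hG h1 h2 hx h
  have hD0 : D 0 = 0 := by
    apply tendsto_nhds_unique (hD 0)
    simp
  have hpos : ∀ (c : ℝ), 0 < c → ∀ h, D (c • h) = c * D h := by
    intro c hc h
    have ht : Tendsto (fun t : ℝ => t * c) (𝓝[>] 0) (𝓝[>] 0) := by
      rw [tendsto_nhdsWithin_iff]
      constructor
      · have : Tendsto (fun t : ℝ => t * c) (𝓝 0) (𝓝 (0 * c)) := tendsto_id.mul_const c
        rw [zero_mul] at this
        exact this.mono_left nhdsWithin_le_nhds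
      · filter_upwards [self_mem_nhdsWithin] with t ht
        exact mul_pos ht hc
    have h3 := ((hD h).comp ht).const_mul c
    apply tendsto_nhds_unique (hD (c • h))
    refine h3.congr' ?_
    filter_upwards [self_mem_nhdsWithin] with t ht
    have ht0 : t ≠ 0 := ne_of_gt ht
    simp only [Function.comp]
    rw [smul_smul]
    field_simp
  have hadd : ∀ a b, D (a + b) = D a + D b := by
    intro a b
    have ht2 : Tendsto (fun t : ℝ => t * 2) (𝓝[>] 0) (𝓝[>] 0) := by
      rw [tendsto_nhdsWithin_iff]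
      constructor
      · have : Tendsto (fun t : ℝ => t * 2) (𝓝 0) (𝓝 (0 * 2)) := tendsto_id.mul_const 2
        rw [zero_mul] at this
        exact this.mono_left nhdsWithin_le_nhds
      · filter_upwards [self_mem_nhdsWithin] with t ht
        have ht' : (0 : ℝ) < t := ht
        show (0 : ℝ) < t * 2
        positivity
    have hlim : Tendsto (fun t : ℝ => (f (x + t • (a + b)) - f x) / t -
        (f (x + (t * 2) • a) - f x) / (t * 2) - (f (x + (t * 2) • b) - f x) / (t * 2))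
        (𝓝[>] 0) (𝓝 (D (a + b) - D a - D b)) :=
      ((hD (a + b)).sub ((hD a).comp ht2)).sub ((hD b).comp ht2)
    have hzero : Tendsto (fun t : ℝ => (f (x + t • (a + b)) - f x) / t -
        (f (x + (t * 2) • a) - f x) / (t * 2) - (f (x + (t * 2) • b) - f x) / (t * 2))
        (𝓝[>] 0) (𝓝 0) := by
      have hb := (mod_tendsto hω ‖a - b‖ (norm_nonneg _)).comp ht2
      rw [tendsto_zero_iff_abs_tendsto_zero]
      apply squeeze_zero' (Eventually.of_forall fun t => abs_nonneg _) ?_ hb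
      filter_upwards [self_mem_nhdsWithin, ht2.eventually (ev_mem hG hx a),
        ht2.eventually (ev_mem hG hx b)] with t ht ha hb'
      have ht0 : (0 : ℝ) < t := ht
      have key := two_sided h1 h2 ha hb' (l := 1 / 2) (by norm_num) (by norm_num)
      have e1 : (1 / 2 : ℝ) • (x + (t * 2) • a) + (1 - 1 / 2 : ℝ) • (x + (t * 2) • b) =
          x + t • (a + b) := by
        module
      have e2 : ‖x + (t * 2) • a - (x + (t * 2) • b)‖ = t * 2 * ‖a - b‖ := by
        rw [add_sub_add_left_eq_sub, ← smul_sub, norm_smul, Real.norm_of_nonneg (by positivity)]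
      rw [e1, e2] at key
      have e3 : (f (x + t • (a + b)) - f x) / t -
        (f (x + (t * 2) • a) - f x) / (t * 2) - (f (x + (t * 2) • b) - f x) / (t * 2) =
        (f (x + t • (a + b)) - (1 / 2 * f (x + (t * 2) • a) +
          (1 - 1 / 2) * f (x + (t * 2) • b))) / t := by
        field_simp
        ring
      rw [e3, abs_div, abs_of_pos ht0, div_le_iff₀ ht0]
      refine key.trans ?_
      simp only [Function.comp]
      have hw : 0 ≤ ω (t * 2 * ‖a - b‖) := hω.2.1 _ (by positivity)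
      have : 0 ≤ ‖a - b‖ * ω (t * 2 * ‖a - b‖) * t := by positivity
      nlinarith
    have := tendsto_nhds_unique hlim hzero
    linarith
  have hneg : ∀ h, D (-h) = - D h := by
    intro h
    have := hadd h (-h)
    rw [add_neg_cancel, hD0] at this
    linarith
  have hsmul : ∀ (c : ℝ) h, D (c • h) = c * D h := by
    intro c h
    rcases lt_trichotomy c 0 with hc | hc | hc
    · have : c • h = -((-c) • h) := by rw [neg_smul, neg_neg]
      rw [this, hneg, hpos (-c) (by linarith)]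
      ring
    · rw [hc]; simp [hD0]
    · exact hpos c hc h
  let Ll : E →ₗ[ℝ] ℝ :=
    { toFun := D
      map_add' := hadd
      map_smul' := fun c h => by simpa using hsmul c h }
  refine ⟨LinearMap.toContinuousLinearMap Ll, ?_⟩
  intro y hy
  have hLD : (LinearMap.toContinuousLinearMap Ll) (y - x) = D (y - x) := rfl
  rw [hLD]
  -- pass to the limit in quot_bound with t = 1
  have hy1 : x + (1 : ℝ) • (y - x) ∈ G := by
    rw [one_smul, add_sub_cancel]; exact hy
  have hlim := ((hD (y - x)).sub_const (f y - f x)).abs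
  have hle : ∀ᶠ t : ℝ in 𝓝[>] 0, |(f (x + t • (y - x)) - f x) / t - (f y - f x)| ≤
      ‖y - x‖ * ω ‖y - x‖ := by
    filter_upwards [Ioc_mem_nhdsGT (zero_lt_one (α := ℝ))] with t ht
    have := quot_bound hω h1 h2 hx ht.1 ht.2 hy1
    rw [one_smul, add_sub_cancel, div_one, one_mul] at this
    exact this
  have := le_of_tendsto hlim hle
  rw [abs_sub_comm] at this
  exact this

theorem hasFDeriv_of (hω : IsModulus ω) (hG : IsOpen G) {x : E} (hx : x ∈ G) (L : E →L[ℝ] ℝ)
    (hL : ∀ y ∈ G, |f y - f x - L (y - x)| ≤ ‖y - x‖ * ω ‖y - x‖) : HasFDerivAt f L x := by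
  rw [hasFDerivAt_iff_isLittleO]
  rw [Asymptotics.isLittleO_iff]
  intro ε hε
  have h0 : ω 0 ≤ ε := by
    have hev := hω.2.2.eventually (gt_mem_nhds hε)
    obtain ⟨t, ht1, ht2⟩ := (hev.and self_mem_nhdsWithin).exists
    have ht0 : (0 : ℝ) < t := ht2
    have := hω.1 0 t le_rfl ht0.le
    linarith
  have hev := hω.2.2.eventually (gt_mem_nhds hε)
  rw [eventually_nhdsWithin_iff, Metric.eventually_nhds_iff] at hev
  obtain ⟨δ, hδ, hev⟩ := hev
  filter_upwards [hG.mem_nhds hx, Metric.ball_mem_nhds x hδ] with y hy hyb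
  have hb := hL y hy
  rw [Real.norm_eq_abs]
  refine hb.trans ?_
  rw [mul_comm]
  apply mul_le_mul_of_nonneg_right _ (norm_nonneg _)
  rcases (norm_nonneg (y - x)).eq_or_lt with h | h
  · rw [← h]; exact h0
  · apply le_of_lt
    apply hev _ h
    rw [Real.dist_eq, sub_zero, abs_of_nonneg (norm_nonneg _)]
    rwa [mem_ball_iff_norm] at hyb

end deriv

end Pool.Agent.H34.Scv
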