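import Pool.Agent.H34.Scv.SE

/-!
Superposition of the scales and the counterexample functions.
-/

namespace Pool.Agent.H34.Scv

open Set Filter Topology

variable {E : Type*} [NormedAddCommGroup E] [InnerProductSpace ℝ E]

/-- the superposition `∑ 2^{-k} g_k` -/
noncomputable def gs (α : ℝ) (R w : ℕ → ℝ) (p : E) : ℝ := ∑' k : ℕ, (1 / 2 : ℝ) ^ k * gk α (R k) (w k) p

section sum

variable {α : ℝ} {R w : ℕ → ℝ} (hα0 : 0 < α) (hα1 : α < 1) (hw : ∀ k, 1 ≤ w k)
  (hwR : ∀ k, w k ≤ R k)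
include hα0 hα1 hw hwR

lemma gs_summable (p : E) : Summable (fun k : ℕ => (1 / 2 : ℝ) ^ k * gk α (R k) (w k) p) := by
  apply Summable.of_nonneg_of_le (f := fun k : ℕ => (1 / 2 : ℝ) ^ k * ‖p‖ ^ 2)
  · intro k
    have := gk_nonneg (α := α) (hw k) (hwR k) p
    positivity
  · intro k
    have := gk_le hα0 hα1 (hw k) (hwR k) p
    gcongr
  · exact summable_geometric_two.mul_right _

lemma gs_ge (p : E) (k : ℕ) : (1 / 2 : ℝ) ^ k * gk α (R k) (w k) p ≤ gs α R w p := by
  apply (gs_summable hα0 hα1 hw hwR p).le_tsum k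
  intro j _
  have := gk_nonneg (α := α) (hw j) (hwR j) p
  positivity

omit hα0 hα1 hw hwR in
lemma tsum_bound {a : ℕ → ℝ} {M : ℝ} (h : ∀ k, |a k| ≤ M) :
    |∑' k : ℕ, (1 / 2 : ℝ) ^ k * a k| ≤ 2 * M := by
  have h1 : HasSum (fun k : ℕ => (1 / 2 : ℝ) ^ k * M) (2 * M) := hasSum_geometric_two.mul_right M
  rw [← Real.norm_eq_abs]
  apply tsum_of_norm_bounded h1
  intro k
  rw [norm_mul, Real.norm_of_nonneg (by positivity), Real.norm_eq_abs]
  gcongr
  exact h k

lemma gs_continuous : Continuous (gs α R w : E → ℝ) := by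
  have hL : LipschitzWith 4 (gs α R w : E → ℝ) := by
    apply LipschitzWith.of_dist_le_mul
    intro x y
    rw [Real.dist_eq, dist_eq_norm]
    have e : gs α R w x - gs α R w y =
        ∑' k : ℕ, (1 / 2 : ℝ) ^ k * (gk α (R k) (w k) x - gk α (R k) (w k) y) := by
      unfold gs
      rw [← (gs_summable hα0 hα1 hw hwR x).tsum_sub (gs_summable hα0 hα1 hw hwR y)]
      congr 1; funext k; ring
    rw [e]
    have := tsum_bound (a := fun k => gk α (R k) (w k) x - gk α (R k) (w k) y)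
      (M := 2 * ‖x - y‖) (by
        intro k
        refine (gk_lip (α := α) (hw k) (hwR k) x y).trans ?_
        have hRk : 0 < R k := by linarith [hw k, hwR k]
        have hs : R k ≤ Real.sqrt (R k ^ 2 + ‖x‖ ^ 2) :=
          Real.le_sqrt_of_sq_le (by nlinarith [sq_nonneg ‖x‖])
        rw [div_le_iff₀ (by linarith)]
        have hL1 := L_le_one hα1 (hw k) (hwR k)
        have hL0 : 0 < w k ^ (α - 1) := Real.rpow_pos_of_pos (by linarith [hw k]) _
        calc 2 * w k ^ (α - 1) * R k * ‖x - y‖ ≤ 2 * 1 * Real.sqrt (R k ^ 2 + ‖x‖ ^ 2) * ‖x - y‖ := by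
              gcongr
          _ = _ := by ring)
    push_cast
    linarith
  exact hL.continuous

/-- the defect of `⟨v,·⟩ g` -/
lemma defect {G : Set E} {v : E} (hv : ‖v‖ = 1)
    (hG : ∀ k, ∀ p ∈ G, |(inner ℝ v p : ℝ)| ≤ w k * Real.sqrt (R k ^ 2 + ‖p‖ ^ 2) / R k)
    (hconv : Convex ℝ G) {x y : E} (hx : x ∈ G) (hy : y ∈ G) {l : ℝ} (hl0 : 0 ≤ l) (hl1 : l ≤ 1) :
    |inner ℝ v (l • x + (1 - l) • y) * gs α R w (l • x + (1 - l) • y) -
      (l * (inner ℝ v x * gs α R w x) + (1 - l) * (inner ℝ v y * gs α R w y))| ≤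
      16 * (l * (1 - l) * ‖x - y‖ * ‖x - y‖ ^ α) := by
  set z := l • x + (1 - l) • y with hz
  have hzG : z ∈ G := hconv hx hy hl0 (by linarith) (by ring)
  have hzi : (inner ℝ v z : ℝ) = l * inner ℝ v x + (1 - l) * inner ℝ v y := by
    rw [hz, inner_add_right, real_inner_smul_right, real_inner_smul_right]
  have hll : 0 ≤ l * (1 - l) := mul_nonneg hl0 (by linarith)
  have sx := gs_summable hα0 hα1 hw hwR x
  have sy := gs_summable hα0 hα1 hw hwR y
  have sz := gs_summable hα0 hα1 hw hwR z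
  -- the two pieces
  have eA : (inner ℝ v x - inner ℝ v y : ℝ) * (gs α R w x - gs α R w y) =
      ∑' k : ℕ, (1 / 2 : ℝ) ^ k * ((inner ℝ v x - inner ℝ v y : ℝ) *
        (gk α (R k) (w k) x - gk α (R k) (w k) y)) := by
    unfold gs
    rw [← sx.tsum_sub sy, ← tsum_mul_left]
    congr 1; funext k; ring
  have eB : (inner ℝ v z : ℝ) * (gs α R w z - (l * gs α R w x + (1 - l) * gs α R w y)) =
      ∑' k : ℕ, (1 / 2 : ℝ) ^ k * ((inner ℝ v z : ℝ) *
        (gk α (R k) (w k) z - (l * gk α (R k) (w k) x + (1 - l) * gk α (R k) (w k) y))) := by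
    unfold gs
    rw [← tsum_mul_left (a := l), ← tsum_mul_left (a := 1 - l),
      ← (sx.mul_left l).tsum_add (sy.mul_left (1 - l)),
      ← sz.tsum_sub ((sx.mul_left l).add (sy.mul_left (1 - l))), ← tsum_mul_left]
    congr 1; funext k; ring
  have bA : |(inner ℝ v x - inner ℝ v y : ℝ) * (gs α R w x - gs α R w y)| ≤
      2 * (4 * ‖x - y‖ * ‖x - y‖ ^ α) := by
    rw [eA]
    apply tsum_bound
    intro k
    apply estA hα0 hα1 (hw k) (hwR k)
    · rw [← inner_sub_right]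
      have := abs_real_inner_le_norm v (x - y)
      rwa [hv, one_mul] at this
    · calc |(inner ℝ v x - inner ℝ v y : ℝ)| ≤ |(inner ℝ v x : ℝ)| + |(inner ℝ v y : ℝ)| :=
            abs_sub _ _
        _ ≤ _ := add_le_add (hG k x hx) (hG k y hy)
  have bB : |(inner ℝ v z : ℝ) * (gs α R w z - (l * gs α R w x + (1 - l) * gs α R w y))| ≤
      2 * (l * (1 - l) * (4 * ‖x - y‖ * ‖x - y‖ ^ α)) := by
    rw [eB]
    apply tsum_bound
    intro k
    exact estB hα0 hα1 (hw k) (hwR k) hl0 hl1 (hG k z hzG)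
  have e : inner ℝ v z * gs α R w z -
      (l * (inner ℝ v x * gs α R w x) + (1 - l) * (inner ℝ v y * gs α R w y)) =
      (inner ℝ v z : ℝ) * (gs α R w z - (l * gs α R w x + (1 - l) * gs α R w y)) -
      l * (1 - l) * ((inner ℝ v x - inner ℝ v y : ℝ) * (gs α R w x - gs α R w y)) := by
    rw [hzi]; ring
  rw [e]
  calc _ ≤ _ := abs_sub _ _
    _ ≤ 2 * (l * (1 - l) * (4 * ‖x - y‖ * ‖x - y‖ ^ α)) +
        l * (1 - l) * (2 * (4 * ‖x - y‖ * ‖x - y‖ ^ α)) := by
        rw [abs_mul (l * (1 - l)), abs_of_nonneg hll]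
        gcongr
    _ = _ := by ring

end sum

/-- scale selection -/
lemma exists_scales {G : Set E} {v : E} (hv : ‖v‖ = 1)
    (h : ∀ ε : ℝ, 0 < ε → ∃ R : ℝ, ∀ p ∈ G, R ≤ ‖p‖ → |(inner ℝ v p : ℝ)| ≤ ε * ‖p‖)
    (Q : ℝ) (hQ : 1 ≤ Q) : ∃ R w : ℝ, 1 ≤ w ∧ w ≤ R ∧ R = Q * w ∧
      ∀ p ∈ G, |(inner ℝ v p : ℝ)| ≤ w * Real.sqrt (R ^ 2 + ‖p‖ ^ 2) / R := by
  have hQ0 : 0 < Q := by linarith
  obtain ⟨R0, hR0⟩ := h (1 / Q) (by positivity)
  set w := max 1 R0 with hw
  have hw1 : 1 ≤ w := le_max_left _ _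
  have hw2 : R0 ≤ w := le_max_right _ _
  refine ⟨Q * w, w, hw1, by nlinarith, rfl, ?_⟩
  intro p hp
  have hRpos : 0 < Q * w := by positivity
  rw [le_div_iff₀ hRpos]
  have hs1 : Q * w ≤ Real.sqrt ((Q * w) ^ 2 + ‖p‖ ^ 2) :=
    Real.le_sqrt_of_sq_le (by nlinarith [sq_nonneg ‖p‖])
  have hs2 : ‖p‖ ≤ Real.sqrt ((Q * w) ^ 2 + ‖p‖ ^ 2) :=
    Real.le_sqrt_of_sq_le (by nlinarith [sq_nonneg (Q * w)])
  rcases le_or_gt R0 ‖p‖ with h1 | h1
  · have := hR0 p hp h1
    calc |(inner ℝ v p : ℝ)| * (Q * w) ≤ (1 / Q * ‖p‖) * (Q * w) := by gcongr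
      _ = w * ‖p‖ := by field_simp
      _ ≤ _ := by gcongr
  · have h2 : |(inner ℝ v p : ℝ)| ≤ w := by
      have := abs_real_inner_le_norm v p
      rw [hv, one_mul] at this
      linarith
    gcongr

/-- the counterexample when `0 ∈ G` -/
theorem exists_bad_zero [FiniteDimensional ℝ E] {G : Set E} (hG : IsOpen G) (hconv : Convex ℝ G)
    (h0 : (0 : E) ∈ G) (hub : ¬ Bornology.IsBounded G) (hcf : ConeFree G) {α : ℝ} (hα0 : 0 < α)
    (hα1 : α < 1) : ∃ f : E → ℝ, Semiconvex (fun t => t ^ α) G f ∧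
      Semiconcave (fun t => t ^ α) G f ∧ ¬ IsC1 (fun t => t ^ α) G f := by
  obtain ⟨u, v, hu, hv, hurc, hvu, hlim⟩ := exists_dirs hG hconv h0 hub hcf
  choose R w hw1 hwR hRw hGb using fun k : ℕ => exists_scales hv hlim
    ((4 : ℝ) ^ ((k : ℝ) / (1 - α))) (Real.one_le_rpow (by norm_num)
      (div_nonneg (by positivity) (by linarith)))
  have hdef := fun {x y : E} (hx : x ∈ G) (hy : y ∈ G) {l : ℝ} (hl0 : 0 ≤ l) (hl1 : l ≤ 1) =>
    defect hα0 hα1 hw1 hwR hv hGb hconv hx hy hl0 hl1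
  have hcont : Continuous (fun p : E => 1 / 16 * (inner ℝ v p * gs α R w p)) := by
    have := gs_continuous (E := E) hα0 hα1 hw1 hwR
    fun_prop
  refine ⟨fun p => 1 / 16 * (inner ℝ v p * gs α R w p), ⟨hcont.continuousOn, ?_⟩,
    ⟨hcont.neg.continuousOn, ?_⟩, ?_⟩
  · intro x hx y hy l hl0 hl1
    have := (abs_le.mp (hdef hx hy hl0 hl1)).2
    dsimp only
    linarith
  · intro x hx y hy l hl0 hl1
    have := (abs_le.mp (hdef hx hy hl0 hl1)).1
    dsimp only
    linarith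
  · rintro ⟨K, hK, hdiff, hgrad⟩
    -- a ball around 0
    obtain ⟨r, hr, hball⟩ := Metric.isOpen_iff.mp hG 0 h0
    set τ := r / 4 with hτ
    have hτ0 : 0 < τ := by positivity
    have hmem : ∀ t ∈ Icc (0 : ℝ) τ, ∀ s : ℝ, 0 ≤ s → s • u + t • v ∈ G := by
      intro t ht s hs
      have h1 : (2 * t) • v ∈ G := by
        apply hball
        rw [mem_ball_zero_iff, norm_smul, hv, mul_one, Real.norm_of_nonneg (by linarith [ht.1])]
        linarith [ht.2]
      have h2 : (2 * s) • u ∈ G := hurc _ (by positivity)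
      have h3 := hconv h2 h1 (a := 1 / 2) (b := 1 / 2) (by norm_num) (by norm_num) (by norm_num)
      rw [smul_smul, smul_smul] at h3
      have e1 : (1 / 2 * (2 * s) : ℝ) = s := by ring
      have e2 : (1 / 2 * (2 * t) : ℝ) = t := by ring
      rwa [e1, e2] at h3
    have hmem0 : ∀ t ∈ Icc (0 : ℝ) τ, t • v ∈ G := by
      intro t ht
      have := hmem t ht 0 le_rfl
      simpa using this
    set F : E → ℝ := fun p => 1 / 16 * (inner ℝ v p * gs α R w p) with hF
    have hvv : (inner ℝ v v : ℝ) = 1 := by rw [real_inner_self_eq_norm_sq, hv]; norm_num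
    -- mean value estimate
    have hmv : ∀ s : ℝ, 0 < s → gs α R w (s • u + τ • v) ≤ gs α R w (τ • v) + 16 * K * s ^ α := by
      intro s hs
      have hder : ∀ t ∈ Icc (0 : ℝ) τ, HasDerivWithinAt
          (fun t : ℝ => F (s • u + t • v) - F (t • v))
          (fderiv ℝ F (s • u + t • v) v - fderiv ℝ F (t • v) v) (Icc 0 τ) t := by
        intro t ht
        have d1 := (hdiff _ (hmem t ht s hs.le)).hasFDerivAt
        have d2 := (hdiff _ (hmem0 t ht)).hasFDerivAt
        have l1 : HasDerivAt (fun t : ℝ => s • u + t • v) v t := by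
          simpa using ((hasDerivAt_id t).smul_const v).const_add (s • u)
        have l2 : HasDerivAt (fun t : ℝ => t • v) v t := by
          simpa using (hasDerivAt_id t).smul_const v
        exact ((d1.comp_hasDerivAt t l1).sub (d2.comp_hasDerivAt t l2)).hasDerivWithinAt
      have hbd : ∀ t ∈ Icc (0 : ℝ) τ,
          ‖fderiv ℝ F (s • u + t • v) v - fderiv ℝ F (t • v) v‖ ≤ K * s ^ α := by
        intro t ht
        have h1 := hgrad _ (hmem t ht s hs.le) _ (hmem0 t ht)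
        have e1 : ‖s • u + t • v - t • v‖ = s := by
          rw [add_sub_cancel_right, norm_smul, hu, mul_one, Real.norm_of_nonneg hs.le]
        rw [e1] at h1
        have h2 := (fderiv ℝ F (s • u + t • v) - fderiv ℝ F (t • v)).le_opNorm v
        rw [hv, mul_one] at h2
        exact h2.trans h1
      have h3 := Convex.norm_image_sub_le_of_norm_hasDerivWithin_le hder hbd (convex_Icc 0 τ)
        (left_mem_Icc.mpr hτ0.le) (right_mem_Icc.mpr hτ0.le)
      rw [sub_zero, Real.norm_of_nonneg hτ0.le, Real.norm_eq_abs] at h3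
      have h4 := (le_abs_self _).trans h3
      have i1 : (inner ℝ v (s • u + τ • v) : ℝ) = τ := by
        rw [inner_add_right, real_inner_smul_right, real_inner_smul_right, hvu, hvv]; ring
      have i2 : (inner ℝ v (τ • v) : ℝ) = τ := by rw [real_inner_smul_right, hvv]; ring
      have i3 : (inner ℝ v (s • u + (0 : ℝ) • v) : ℝ) = 0 := by
        rw [zero_smul, add_zero, real_inner_smul_right, hvu, mul_zero]
      have i4 : (inner ℝ v ((0 : ℝ) • v) : ℝ) = 0 := by simp
      simp only [hF, i1, i2, i3, i4, zero_mul, mul_zero, sub_zero] at h4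
      have h5 : τ * (gs α R w (s • u + τ • v) - gs α R w (τ • v)) ≤ τ * (16 * (K * s ^ α)) := by
        linarith
      have h6 := le_of_mul_le_mul_left h5 hτ0
      linarith
    -- lower bound at scale k
    have hlow : ∀ k : ℕ, (1 / 2 : ℝ) * 2 ^ k * (R k) ^ α ≤ gs α R w (R k • u + τ • v) := by
      intro k
      have hRk : 0 < R k := by linarith [hw1 k, hwR k]
      have hwk : 0 < w k := by linarith [hw1 k]
      refine le_trans ?_ (gs_ge hα0 hα1 hw1 hwR _ k)
      have hn : R k ^ 2 ≤ ‖R k • u + τ • v‖ ^ 2 := by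
        rw [norm_add_sq_real, norm_smul, hu, real_inner_smul_left, real_inner_smul_right,
          real_inner_comm, hvu, Real.norm_of_nonneg hRk.le]
        nlinarith [sq_nonneg ‖τ • v‖]
      have hfrac : 1 / 2 ≤ ‖R k • u + τ • v‖ ^ 2 / (R k ^ 2 + ‖R k • u + τ • v‖ ^ 2) := by
        rw [div_le_div_iff₀ (by norm_num) (by positivity)]
        linarith
      have hLR : w k ^ (α - 1) * R k = 4 ^ k * (R k) ^ α := by
        have e1 : R k = (4 : ℝ) ^ ((k : ℝ) / (1 - α)) * w k := hRw k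
        have e2 : w k ^ (α - 1) = (R k) ^ (α - 1) * ((4 : ℝ) ^ ((k : ℝ) / (1 - α))) ^ (1 - α) := by
          have hq : (0 : ℝ) < (4 : ℝ) ^ ((k : ℝ) / (1 - α)) := by positivity
          have : R k ^ (α - 1) = ((4 : ℝ) ^ ((k : ℝ) / (1 - α))) ^ (α - 1) * w k ^ (α - 1) := by
            conv_lhs => rw [e1]
            rw [Real.mul_rpow hq.le hwk.le]
          rw [this]
          have h7 : ((4 : ℝ) ^ ((k : ℝ) / (1 - α))) ^ (α - 1) *
              ((4 : ℝ) ^ ((k : ℝ) / (1 - α))) ^ (1 - α) = 1 := by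
            rw [← Real.rpow_add hq]; simp
          calc w k ^ (α - 1) = w k ^ (α - 1) * (((4 : ℝ) ^ ((k : ℝ) / (1 - α))) ^ (α - 1) *
              ((4 : ℝ) ^ ((k : ℝ) / (1 - α))) ^ (1 - α)) := by rw [h7, mul_one]
            _ = _ := by ring
        have e3 : ((4 : ℝ) ^ ((k : ℝ) / (1 - α))) ^ (1 - α) = 4 ^ k := by
          rw [← Real.rpow_mul (by norm_num), div_mul_cancel₀ _ (by linarith), Real.rpow_natCast]
        have e4 : (R k) ^ (α - 1) * R k = (R k) ^ α := by
          have : R k ^ α = R k ^ ((α - 1) + 1) := by congr 1; ring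
          rw [this, Real.rpow_add hRk, Real.rpow_one]
        rw [e2, e3]
        calc R k ^ (α - 1) * 4 ^ k * R k = 4 ^ k * (R k ^ (α - 1) * R k) := by ring
          _ = _ := by rw [e4]
      unfold gk
      rw [hLR]
      have h8 : (1 / 2 : ℝ) ^ k * (4 ^ k * R k ^ α * (1 / 2)) = 1 / 2 * 2 ^ k * R k ^ α := by
        have : (1 / 2 : ℝ) ^ k * 4 ^ k = 2 ^ k := by rw [← mul_pow]; norm_num
        calc _ = ((1 / 2 : ℝ) ^ k * 4 ^ k) * (1 / 2) * R k ^ α := by ring
          _ = _ := by rw [this]; ring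
      rw [← h8]
      have : 0 ≤ R k ^ α := by positivity
      gcongr
    -- conclusion
    have hall : ∀ k : ℕ, (2 : ℝ) ^ k ≤ 2 * (gs α R w (τ • v) + 16 * K) := by
      intro k
      have hRk : 1 ≤ R k := by linarith [hw1 k, hwR k]
      have a1 := hlow k
      have a2 := hmv (R k) (by linarith)
      have hR1 : 1 ≤ R k ^ α := Real.one_le_rpow hRk hα0.le
      have hg0 : 0 ≤ gs α R w (τ • v) := by
        have := gs_ge hα0 hα1 hw1 hwR (τ • v) 0
        have h9 := gk_nonneg (α := α) (hw1 0) (hwR 0) (τ • v)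
        simp only [pow_zero, one_mul] at this
        linarith
      have a3 : (1 / 2 : ℝ) * 2 ^ k * (R k) ^ α ≤ (gs α R w (τ • v) + 16 * K) * (R k) ^ α := by
        nlinarith
      have a4 := le_of_mul_le_mul_right a3 (by linarith)
      linarith
    have htop := tendsto_pow_atTop_atTop_of_one_lt (one_lt_two : (1 : ℝ) < 2)
    obtain ⟨k, hk⟩ := (htop.eventually_gt_atTop (2 * (gs α R w (τ • v) + 16 * K))).exists
    linarith [hall k]

/-- the general case -/
theorem exists_bad [FiniteDimensional ℝ E] {G : Set E} (hG : IsOpen G) (hconv : Convex ℝ G)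
    (hub : ¬ Bornology.IsBounded G) (hcf : ConeFree G) {α : ℝ} (hα0 : 0 < α)
    (hα1 : α < 1) : ∃ f : E → ℝ, Semiconvex (fun t => t ^ α) G f ∧
      Semiconcave (fun t => t ^ α) G f ∧ ¬ IsC1 (fun t => t ^ α) G f := by
  have hne : G.Nonempty := by
    rw [nonempty_iff_ne_empty]
    rintro rfl
    exact hub Bornology.isBounded_empty
  obtain ⟨p0, hp0⟩ := hne
  set G0 : Set E := (fun x => p0 + x) ⁻¹' G with hG0
  have h1 : IsOpen G0 := hG.preimage (by fun_prop)
  have h2 : Convex ℝ G0 := by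
    intro x hx y hy a b ha hb hab
    show p0 + (a • x + b • y) ∈ G
    have : p0 + (a • x + b • y) = a • (p0 + x) + b • (p0 + y) := by
      have hb' : b = 1 - a := by linarith
      rw [hb']; module
    rw [this]
    exact hconv hx hy ha hb hab
  have h3 : (0 : E) ∈ G0 := by show p0 + 0 ∈ G; simpa using hp0
  have h4 : ¬ Bornology.IsBounded G0 := by
    intro hb
    apply hub
    rw [isBounded_iff_forall_norm_le] at hb ⊢
    obtain ⟨C, hC⟩ := hb
    refine ⟨‖p0‖ + C, fun x hx => ?_⟩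
    have h5 : x - p0 ∈ G0 := by show p0 + (x - p0) ∈ G; simpa using hx
    have h6 := hC _ h5
    calc ‖x‖ = ‖p0 + (x - p0)‖ := by congr 1; abel
      _ ≤ ‖p0‖ + ‖x - p0‖ := norm_add_le _ _
      _ ≤ _ := by linarith
  have h5 : ConeFree G0 := by
    rintro ⟨C, a, hc1, hc2, hc3, hc4⟩
    apply hcf
    refine ⟨C, p0 + a, hc1, hc2, hc3, ?_⟩
    rintro _ ⟨x, hx, rfl⟩
    have : a + x ∈ G0 := hc4 ⟨x, hx, rfl⟩
    have h6 : p0 + (a + x) ∈ G := this
    rwa [← add_assoc] at h6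
  obtain ⟨f, ⟨hfc, hf1⟩, ⟨-, hf2⟩, hf3⟩ := exists_bad_zero h1 h2 h3 h4 h5 hα0 hα1
  have hin : ∀ x ∈ G, x - p0 ∈ G0 := by
    intro x hx; show p0 + (x - p0) ∈ G; simpa using hx
  have hc : ContinuousOn (fun x => f (x - p0)) G :=
    hfc.comp (by fun_prop) hin
  refine ⟨fun x => f (x - p0), ⟨hc, ?_⟩, ⟨hc.neg, ?_⟩, ?_⟩
  · intro x hx y hy l hl0 hl1
    have h6 := hf1 _ (hin x hx) _ (hin y hy) l hl0 hl1
    have e1 : l • (x - p0) + (1 - l) • (y - p0) = l • x + (1 - l) • y - p0 := by module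
    rw [e1, sub_sub_sub_cancel_right] at h6
    exact h6
  · intro x hx y hy l hl0 hl1
    have h6 := hf2 _ (hin x hx) _ (hin y hy) l hl0 hl1
    have e1 : l • (x - p0) + (1 - l) • (y - p0) = l • x + (1 - l) • y - p0 := by module
    rw [e1, sub_sub_sub_cancel_right] at h6
    exact h6
  · rintro ⟨K, hK, hd, hg⟩
    apply hf3
    have hsh : ∀ x ∈ G0, HasFDerivAt f (fderiv ℝ (fun x => f (x - p0)) (p0 + x)) x := by
      intro x hx
      have h6 : HasFDerivAt (fun x => f (x - p0)) (fderiv ℝ (fun x => f (x - p0)) (p0 + x))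
          (p0 + x) := (hd (p0 + x) hx).hasFDerivAt
      have h7 : HasFDerivAt (fun y : E => p0 + y) (ContinuousLinearMap.id ℝ E) x :=
        (hasFDerivAt_id x).const_add p0
      have h8 := h6.comp x h7
      have e2 : ((fun x => f (x - p0)) ∘ fun y : E => p0 + y) = f := by
        funext y; simp
      rw [e2, ContinuousLinearMap.comp_id] at h8
      exact h8
    refine ⟨K, hK, fun x hx => (hsh x hx).differentiableAt, ?_⟩
    intro x hx y hy
    rw [(hsh x hx).fderiv, (hsh y hy).fderiv]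
    have := hg (p0 + x) hx (p0 + y) hy
    rwa [add_sub_add_left_eq_sub] at this

end Pool.Agent.H34.Scv
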